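import Pool.Agent.J4H45.OPT.Trans
import Pool.Agent.J4H63.ESY.Defs
import Pool.Agent.H628R3.RO.D2
import Pool.Agent.H628R3.RO.G1

/-!
# Oracles made from a random oracle, and computations which do not touch a candidate
-/

set_option autoImplicit false

namespace Pool.Agent.J4H45.OPT

open Pool.Agent.NPC Pool.Agent.H628R3.RO Pool.Agent.J4H63.ESY

/-- Oracles `O A` made from `A` and fixed information: the value at `q` depends on the value of `A`
at `s q` only, and the value of `A` at `x` is the value of `O A` at `g x`. -/
structure Emb (O : Oracle → Oracle) where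
  s : List Bool → List Bool
  ps : Poly s
  len : ∀ q, (s q).length ≤ q.length
  loc : ∀ (q : List Bool) (A A' : Oracle), A (s q) = A' (s q) → O A q = O A' q
  g : List Bool → List Bool
  pg : Poly g
  emb : ∀ A x, O A (g x) = A x

/-- the random oracle alone -/
noncomputable def embId : Emb (fun A => A) where
  s := fun q => q
  ps := Poly.id
  len := fun _ => le_rfl
  loc := fun _ _ _ h => h
  g := fun x => x
  pg := Poly.id
  emb := fun _ _ => rfl

/-- the random oracle and a fixed oracle -/
noncomputable def embJoin (E : Oracle) : Emb (fun A => join A E) where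
  s := List.tail
  ps := Poly.tail Poly.id
  len := fun q => by rw [List.length_tail]; omega
  loc := by
    intro q A A' h
    rcases q with _ | ⟨b, q⟩
    · rfl
    · cases b with
      | false => exact h
      | true => rfl
  g := fun x => false :: x
  pg := Poly.cons (NPC.Poly.const false) Poly.id
  emb := fun _ _ => rfl

/-- the last `n` letters -/
def lastn (n : ℕ) (u : List Bool) : List Bool := u.drop (u.length - n)

theorem lastn_pos (c i : ℕ) (w : List Bool) : lastn w.length (pos c i w) = w := by
  unfold lastn
  rw [length_pos]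
  have h : c + i + w.length + 2 - w.length = c + i + 2 := by omega
  rw [h]
  unfold pos
  rw [List.drop_append, List.length_replicate]
  have h2 : c + i + 2 - c = i + 2 := by omega
  rw [h2, List.drop_succ_cons, List.drop_append, List.length_replicate]
  have h3 : i + 1 - i = 1 := by omega
  rw [h3, List.drop_succ_cons, List.drop_zero]
  simp
  omega

theorem p_lastn {α : Type} [TEnc α] {n : α → ℕ} {u : α → List Bool} (hn : UPoly n)
    (hu : Poly u) : Poly (fun a => lastn (n a) (u a)) := by
  refine p_drop hu ?_
  exact UPoly.of_le (Poly.sub (Poly.length hu) hn.toPoly) (UPoly.length hu)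
    fun a => Nat.sub_le _ _

/-- `A` and `A'` agree outside of the strings belonging to the candidate `w`. -/
def AgrOff (w : List Bool) (A A' : Oracle) : Prop :=
  ∀ x : List Bool, (∀ b, x ≠ pos 0 b w) → A' x = A x

/-- The output of `M` on `y` does not depend on the strings belonging to the candidate `w`. -/
def Free (O : Oracle → Oracle) (M : Alg) (A : Oracle) (y w : List Bool) : Prop :=
  ∀ A' : Oracle, AgrOff w A A' → M.out (O A') y = M.out (O A) y

theorem free_of_notMem {O : Oracle → Oracle} (E : Emb O) (M : Alg) (A : Oracle)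
    (y z w : List Bool) (h : M.out (O A) y = some z)
    (hw : ∀ q ∈ qs M y (trs M (O A) y), lastn w.length (E.s q) ≠ w) : Free O M A y w := by
  intro A' hA
  rw [h]
  refine out_congr_qs M (O A) (O A') y z h fun q hq => ?_
  refine (E.loc q A' A ?_)
  refine hA _ fun b hb => hw q hq ?_
  rw [hb, lastn_pos]

/-- few candidates are touched -/
theorem exists_touched {O : Oracle → Oracle} (E : Emb O) (M : Alg) (A : Oracle)
    (y z : List Bool) (n : ℕ) (h : M.out (O A) y = some z) :
    ∃ S : Finset (List Bool), S.card ≤ M.p.eval y.length ∧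
      ∀ w : List Bool, w.length = n → w ∉ S → Free O M A y w := by
  classical
  refine ⟨((qs M y (trs M (O A) y)).map (fun q => lastn n (E.s q))).toFinset, ?_, ?_⟩
  · refine (List.toFinset_card_le _).trans ?_
    rw [List.length_map, qs_length]
    exact trs_length _ _ _
  · intro w hw hS
    subst hw
    refine free_of_notMem E M A y z w h fun q hq he => hS ?_
    rw [List.mem_toFinset]
    exact List.mem_map.2 ⟨q, hq, he⟩

theorem out_congr_emb {O : Oracle → Oracle} (E : Emb O) (M : Alg) :
    ∃ qb : Polynomial ℕ, ∀ (A A' : Oracle) (u : List Bool) (N : ℕ),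
      u.length ≤ N → (∀ x : List Bool, x.length ≤ qb.eval N → A x = A' x) →
      M.out (O A) u = M.out (O A') u := by
  obtain ⟨qb, hq⟩ := M.out_congr
  refine ⟨qb, fun A A' u N hu h => hq _ _ u N hu fun x hx => ?_⟩
  exact E.loc x A A' (h _ ((E.len x).trans hx))

/-! ### The language is in `coNP` -/

theorem map_map_emb {O : Oracle → Oracle} (E : Emb O) (A : Oracle) (l : List (List Bool)) :
    (l.map E.g).map (O A) = l.map A := by
  rw [List.map_map]
  exact List.map_congr_left fun x _ => E.emb A x

theorem p_mapg {O : Oracle → Oracle} (E : Emb O) {α : Type} [TEnc α]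
    {l : α → List (List Bool)} (hl : Poly l) : Poly (fun a => (l a).map E.g) :=
  NPC.Poly.map (F := fun _ x => E.g x) hl (E.pg.comp (Poly.snd Poly.id))

theorem mem_BadT {A : Oracle} {n j : ℕ} :
    A ∈ BadT n j ↔ ∃ w : List Bool, w.length = n ∧ Hit (n + j) (0, w) A := by
  unfold BadT blkT
  rw [Set.mem_compl_iff, not_mem_noHit]
  constructor
  · rintro ⟨⟨c, w⟩, hκ, hh⟩
    rw [mem_cands, Finset.mem_singleton] at hκ
    obtain ⟨rfl, hw⟩ := hκ
    exact ⟨w, hw, hh⟩
  · rintro ⟨w, hw, hh⟩
    exact ⟨(0, w), mem_cands.2 ⟨Finset.mem_singleton_self _, hw⟩, hh⟩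

theorem isCoNP_emb {O : Oracle → Oracle} (E : Emb O) (A : Oracle) :
    IsCoNP (O A) {x | x = [] ∨ A ∉ BadT (siz x) (lvl x)} := by
  refine isNP_of_tt (O A) _
    (Q := fun p => (asks (siz p.1 + lvl p.1) 0 p.2).map E.g)
    (T := fun p => !(decide (p.1.1 = [])) &&
      (decide (p.1.2.length = siz p.1.1) && p.2.all id)) ?_ ?_ Polynomial.X fun x => ?_
  · exact p_mapg E (p_asks (UPoly.add (u_siz (Poly.fst Poly.id)) (u_lvl (Poly.fst Poly.id)))
      (UPoly.const 0) (Poly.snd Poly.id))
  · have h1 : Poly (fun p : (List Bool × List Bool) × List Bool => p.1.1) :=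
      Poly.fst (Poly.fst Poly.id)
    have h2 : Poly (fun p : (List Bool × List Bool) × List Bool => p.1.2) :=
      Poly.snd (Poly.fst Poly.id)
    exact Poly.and (Poly.not (Poly.decide_eq h1 (NPC.Poly.const [])))
      (Poly.and (Poly.decide_eq (Poly.length h2) (u_siz h1).toPoly) (p_all_id (Poly.snd Poly.id)))
  · simp only [Set.mem_compl_iff, Set.mem_ofPred_eq, not_or, not_not, Bool.and_eq_true,
      Bool.not_eq_true', decide_eq_false_iff_not, decide_eq_true_eq, map_map_emb, asks_all,
      Polynomial.eval_X, mem_BadT]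
    constructor
    · rintro ⟨hx, w, hw, hh⟩
      have := siz_add_lvl x
      exact ⟨w, by omega, hx, hw, hh⟩
    · rintro ⟨w, -, hx, hw, hh⟩
      exact ⟨hx, w, hw, hh⟩

end Pool.Agent.J4H45.OPT
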