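import Pool.Agent.NPC.Dec
import Pool.Agent.H529R3.Lev.Tow

/-!
# The schedule: the tower of twos
-/

set_option autoImplicit false

namespace Pool.Agent.J4H45.OPT

open Pool.Agent.NPC Filter

/-- The tower of twos. -/
def tw : ℕ → ℕ
  | 0 => 1
  | i + 1 => 2 ^ tw i

theorem tw_pos (i : ℕ) : 1 ≤ tw i := by
  cases i with
  | zero => exact le_rfl
  | succ i => exact Nat.one_le_two_pow

theorem tw_lt_succ (i : ℕ) : tw i < tw (i + 1) := Nat.lt_two_pow_self

theorem tw_strictMono : StrictMono tw := strictMono_nat_of_lt_succ tw_lt_succ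

theorem lt_tw (i : ℕ) : i < tw i := by
  induction i with
  | zero => exact Nat.one_pos
  | succ i ih => exact lt_of_le_of_lt ih (tw_lt_succ i)

theorem tw_inj {i j : ℕ} (h : tw i = tw j) : i = j := tw_strictMono.injective h

theorem tendsto_tw : Tendsto tw atTop atTop := tw_strictMono.tendsto_atTop

/-! ### Recognizing the numbers of the schedule -/

/-- the logarithm -/
def lg (m : ℕ) : ℕ := m.size - 1

theorem lg_two_pow (t : ℕ) : lg (2 ^ t) = t := by
  unfold lg
  rw [Nat.size_pow]
  omega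

theorem lg_le (m : ℕ) : lg m ≤ m := by
  unfold lg
  have := Poly.size_le_self m
  omega

/-- one step of the test -/
def stp (s : ℕ × ℕ × Bool) : ℕ × ℕ × Bool :=
  if s.1 = 1 then s else (lg s.1, s.2.1 + 1, s.2.2 && decide (2 ^ lg s.1 = s.1))

theorem stp_one (k : ℕ) (b : Bool) (f : ℕ) : stp^[f] (1, k, b) = (1, k, b) := by
  induction f with
  | zero => rfl
  | succ f ih =>
    rw [Function.iterate_succ_apply]
    have : stp (1, k, b) = (1, k, b) := by simp [stp]
    rw [this, ih]

theorem stp_tw (i : ℕ) : ∀ (f k : ℕ), i ≤ f → stp^[f] (tw i, k, true) = (1, k + i, true) := by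
  induction i with
  | zero => intro f k _; exact stp_one k true f
  | succ i ih =>
    intro f k hf
    obtain ⟨f, rfl⟩ : ∃ f', f = f' + 1 := ⟨f - 1, by omega⟩
    rw [Function.iterate_succ_apply]
    have h1 : tw (i + 1) ≠ 1 := by
      have h2 := tw_lt_succ i
      have h3 := tw_pos i
      omega
    have h2 : stp (tw (i + 1), k, true) = (tw i, k + 1, true) := by
      have h3 : lg (tw (i + 1)) = tw i := lg_two_pow _
      have h4 : 2 ^ tw i = tw (i + 1) := rfl
      unfold stp
      simp only [h1, if_false, h3, h4, decide_true, Bool.and_true]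
    rw [h2, ih f (k + 1) (by omega)]
    simp only [Prod.mk.injEq, and_true, true_and]
    omega

theorem stp_false (f : ℕ) : ∀ m k, (stp^[f] (m, k, false)).2.2 = false := by
  induction f with
  | zero => intro m k; rfl
  | succ f ih =>
    intro m k
    rw [Function.iterate_succ_apply]
    unfold stp
    by_cases h : m = 1
    · simp only [h, if_true]
      exact ih _ _
    · simp only [h, if_false, Bool.false_and]
      exact ih _ _

theorem stp_inv (f : ℕ) : ∀ m k k', stp^[f] (m, k, true) = (1, k', true) →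
    k ≤ k' ∧ m = tw (k' - k) := by
  induction f with
  | zero =>
    intro m k k' h
    simp only [Function.iterate_zero, id_eq, Prod.mk.injEq, and_true] at h
    obtain ⟨rfl, rfl⟩ := h
    simp [tw]
  | succ f ih =>
    intro m k k' h
    rw [Function.iterate_succ_apply] at h
    by_cases h1 : m = 1
    · have h2 : stp (m, k, true) = (1, k, true) := by simp [stp, h1]
      rw [h2, stp_one] at h
      simp only [Prod.mk.injEq, and_true, true_and] at h
      subst h
      simp [h1, tw]
    · have h2 : stp (m, k, true) = (lg m, k + 1, decide (2 ^ lg m = m)) := by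
        unfold stp
        simp [h1]
      rw [h2] at h
      by_cases h3 : 2 ^ lg m = m
      · rw [decide_eq_true h3] at h
        obtain ⟨h4, h5⟩ := ih _ _ _ h
        refine ⟨by omega, ?_⟩
        have h6 : k' - k = (k' - (k + 1)) + 1 := by omega
        rw [h6, tw, ← h5, h3]
      · rw [decide_eq_false h3] at h
        have h4 := stp_false f (lg m) (k + 1)
        rw [h] at h4
        simp at h4

/-- The index in the schedule plus one, or zero if the number is not in the schedule. -/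
def ix (n : ℕ) : ℕ :=
  if (stp^[n] (n, 0, true)).1 = 1 ∧ (stp^[n] (n, 0, true)).2.2 = true then
    (stp^[n] (n, 0, true)).2.1 + 1 else 0

theorem ix_tw (i : ℕ) : ix (tw i) = i + 1 := by
  unfold ix
  rw [stp_tw i (tw i) 0 (lt_tw i).le]
  simp

theorem tw_of_ix {n i : ℕ} (h : ix n = i + 1) : n = tw i := by
  unfold ix at h
  split_ifs at h with h1
  have h2 := stp_inv n n 0 (stp^[n] (n, 0, true)).2.1 (by
    rw [Prod.ext_iff, Prod.ext_iff]
    exact ⟨h1.1, rfl, h1.2⟩)
  have h3 : (stp^[n] (n, 0, true)).2.1 = i := by omega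
  rw [h3] at h2
  simpa using h2.2

section

variable {α : Type} [TEnc α]

theorem u_size {n : α → ℕ} (hn : Poly n) : UPoly (fun b => (n b).size) :=
  (UPoly.length hn.natBits).congr fun b => by
    change List.replicate (n b).bits.length () = _
    rw [Nat.size_eq_bits_len]

theorem u_lg {n : α → ℕ} (hn : Poly n) : UPoly (fun a => lg (n a)) := by
  refine UPoly.of_le (Poly.sub (u_size hn).toPoly (NPC.Poly.const 1)) (u_size hn) fun a => ?_
  unfold lg
  omega

theorem valB_two_pow (k : ℕ) : valB (List.replicate k false ++ [true]) = 2 ^ k := by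
  rw [valB_append, List.length_replicate]
  have h : ∀ k : ℕ, valB (List.replicate k false) = 0 := by
    intro k
    induction k with
    | zero => rfl
    | succ k ih => rw [List.replicate_succ]; simp [valB, ih]
  rw [h]
  simp [valB]

theorem p_two_pow {u : α → ℕ} (hu : UPoly u) : Poly (fun a => 2 ^ (u a)) := by
  have h1 : Poly (fun a => (List.replicate (u a) ()).map (fun _ => false)) :=
    NPC.Poly.map (F := fun _ _ => false) hu (NPC.Poly.const false)
  have h2 : Poly (fun a => List.replicate (u a) false) := h1.congr fun a => by simp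
  refine (Poly.valBits (Poly.append h2 (NPC.Poly.const [true]))).congr fun a => ?_
  exact valB_two_pow _

theorem p_stp : Poly stp := by
  have h1 : Poly (fun s : ℕ × ℕ × Bool => s.1) := Poly.fst Poly.id
  have h2 : Poly (fun s : ℕ × ℕ × Bool => s.2.1) := Poly.fst (Poly.snd Poly.id)
  have h3 : Poly (fun s : ℕ × ℕ × Bool => s.2.2) := Poly.snd (Poly.snd Poly.id)
  exact Poly.ite (Poly.decide_eq h1 (NPC.Poly.const 1)) Poly.id
    (Poly.pair (u_lg h1).toPoly (Poly.pair (Poly.succ h2)
      (Poly.and h3 (Poly.decide_eq (p_two_pow (u_lg h1)) h1))))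

theorem stp_bound (f : ℕ) : ∀ m k b, (stp^[f] (m, k, b)).1 ≤ m + 1 ∧
    (stp^[f] (m, k, b)).2.1 ≤ k + f := by
  induction f with
  | zero => intro m k b; exact ⟨Nat.le_succ m, le_rfl⟩
  | succ f ih =>
    intro m k b
    rw [Function.iterate_succ_apply]
    by_cases h : m = 1
    · have : stp (m, k, b) = (m, k, b) := by simp [stp, h]
      rw [this]
      have := ih m k b
      omega
    · have h2 : stp (m, k, b) = (lg m, k + 1, b && decide (2 ^ lg m = m)) := by
        simp [stp, h]
      rw [h2]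
      have h3 := ih (lg m) (k + 1) (b && decide (2 ^ lg m = m))
      have h4 := lg_le m
      omega

theorem p_stpI {n : α → ℕ} (hn : UPoly n) :
    Poly (fun a => stp^[n a] (n a, 0, true)) := by
  obtain ⟨r, hr⟩ : ∃ r : Polynomial ℕ, ∀ a, n a ≤ r.eval (sz a) := by
    obtain ⟨r, hr⟩ := Poly.sz_le hn
    refine ⟨r, fun a => ?_⟩
    have h1 := hr a
    have h2 := length_lt_sz (List.replicate (n a) ())
    rw [List.length_replicate] at h2
    omega
  refine (Poly.iterLen (l := fun a => List.replicate (n a) ())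
    (s := fun a => ((n a, 0, true) : ℕ × ℕ × Bool)) (F := fun (_ : α) s => stp s)
    hn (Poly.pair hn.toPoly (NPC.Poly.const (0, true))) (p_stp.comp (Poly.snd Poly.id))
    (Polynomial.C 8 * r + Polynomial.C 20) ?_).congr fun a => ?_
  · intro a k hk
    rw [List.length_replicate] at hk
    have h1 := stp_bound k (n a) 0 true
    change sz (stp^[k] (n a, 0, true)) ≤ _
    generalize stp^[k] (n a, 0, true) = s at *
    obtain ⟨s1, s2, s3⟩ := s
    have h2 := sz_nat_le s1
    have h3 := sz_nat_le s2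
    have h4 := sz_bool_le s3
    have h5 := Poly.size_le_self s1
    have h6 := Poly.size_le_self s2
    have h7 := hr a
    simp only [sz_pair, Polynomial.eval_add, Polynomial.eval_mul, Polynomial.eval_C] at *
    omega
  · rw [List.length_replicate]

theorem p_ix {n : α → ℕ} (hn : UPoly n) : Poly (fun a => ix (n a)) := by
  have h := p_stpI hn
  refine Poly.ite (Poly.decide_and (Poly.decide_eq (Poly.fst h) (NPC.Poly.const 1))
    (Poly.decide_eq (Poly.snd (Poly.snd h)) (NPC.Poly.const true)))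
    (Poly.succ (Poly.fst (Poly.snd h))) (NPC.Poly.const 0)

end

/-! ### Growth -/

theorem eval_le_pow (q : Polynomial ℕ) (m s : ℕ) (h : m ≤ 2 ^ s) :
    q.eval m ≤ 2 ^ (q.eval 1 + q.natDegree * s) := by
  have h1 : q.eval m ≤ q.eval (2 ^ s) := eval_mono q h
  refine h1.trans ((H529R3.Lev.poly_le q _ Nat.one_le_two_pow).trans ?_)
  rw [pow_add, mul_comm q.natDegree s, pow_mul]
  exact Nat.mul_le_mul_right _ Nat.lt_two_pow_self.le

/-- `m` is short relative to `n` -/
def Sh (n m : ℕ) : Prop := m.size ^ 2 ≤ n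

instance (n m : ℕ) : Decidable (Sh n m) := inferInstanceAs (Decidable (m.size ^ 2 ≤ n))

theorem sh_poly (q : Polynomial ℕ) : ∃ N, ∀ n ≥ N, ∀ m, Sh n m → 2 * q.eval m ≤ 2 ^ n := by
  set c := q.eval 1 with hc
  set d := q.natDegree with hd
  refine ⟨(c + d + 2) ^ 2, fun n hn m hm => ?_⟩
  have h1 := eval_le_pow q m m.size (Nat.lt_size_self m).le
  rw [← hc, ← hd] at h1
  have h2 : c + d * m.size + 1 ≤ n := by
    unfold Sh at hm
    rcases le_or_gt (c + d + 1) m.size with h | h
    · calc c + d * m.size + 1 ≤ (c + d + 1) * m.size := by nlinarith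
        _ ≤ m.size ^ 2 := by nlinarith
        _ ≤ n := hm
    · calc c + d * m.size + 1 ≤ (c + d + 2) ^ 2 := by nlinarith
        _ ≤ n := hn
  calc 2 * q.eval m ≤ 2 * 2 ^ (c + d * m.size) := by omega
    _ = 2 ^ (c + d * m.size + 1) := by rw [pow_succ]; ring
    _ ≤ 2 ^ n := Nat.pow_le_pow_right (by norm_num) h2

/-- the growth in one step of the ladder -/
theorem exists_exponent (r : Polynomial ℕ) : ∃ m : ℕ, 1 ≤ m ∧ ∀ x, r.eval (x + 2) + 3 ≤
    (x + 2) ^ m := by
  refine ⟨(r.eval 1 + 2) + r.natDegree + 1, by omega, fun x => ?_⟩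
  have h1 := H529R3.Lev.poly_le r (x + 2) (by omega)
  have h2 : r.eval 1 + 3 ≤ 2 ^ (r.eval 1 + 2) := by
    have : r.eval 1 + 2 < 2 ^ (r.eval 1 + 2) := Nat.lt_two_pow_self
    omega
  have h3 : 1 ≤ (x + 2) ^ r.natDegree := Nat.one_le_pow _ _ (by omega)
  calc r.eval (x + 2) + 3 ≤ r.eval 1 * (x + 2) ^ r.natDegree + 3 := by omega
    _ ≤ (r.eval 1 + 3) * (x + 2) ^ r.natDegree := by nlinarith
    _ ≤ 2 ^ (r.eval 1 + 2) * (x + 2) ^ r.natDegree := Nat.mul_le_mul_right _ h2
    _ ≤ (x + 2) ^ (r.eval 1 + 2) * (x + 2) ^ r.natDegree :=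
        Nat.mul_le_mul_right _ (Nat.pow_le_pow_left (by omega) _)
    _ = (x + 2) ^ (r.eval 1 + 2 + r.natDegree) := (pow_add _ _ _).symm
    _ ≤ (x + 2) ^ (r.eval 1 + 2 + r.natDegree + 1) :=
        Nat.pow_le_pow_right (by omega) (Nat.le_succ _)

theorem size_le_of_le_two_pow {m k : ℕ} (h : m ≤ 2 ^ k) : m.size ≤ k + 1 := by
  rw [Nat.size_le]
  exact lt_of_le_of_lt h (Nat.pow_lt_pow_right (by norm_num) (Nat.lt_succ_self k))

theorem growth (m : ℕ) : ∀ᶠ i in atTop,
    ((tw i + i + 3).size + 2) ^ (2 * m ^ (i + 1)) ≤ tw i := by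
  have h1 : ∀ᶠ v : ℕ in atTop, (m + 1) * v + 4 * m + 2 ≤ 2 ^ v := by
    have h := H529R3.Lev.poly_le_two_pow (Polynomial.C (m + 1) * Polynomial.X +
      Polynomial.C (4 * m + 2))
    filter_upwards [h] with v hv
    simp only [Polynomial.eval_add, Polynomial.eval_mul, Polynomial.eval_C,
      Polynomial.eval_X] at hv
    omega
  have h2 : ∀ᶠ k : ℕ in atTop, (m + 1) * tw k + 4 * m + 2 ≤ 2 ^ tw k :=
    tendsto_tw.eventually h1
  have h3 : ∀ᶠ k : ℕ in atTop, ((tw (k + 3) + (k + 3) + 3).size + 2) ^ (2 * m ^ (k + 3 + 1)) ≤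
      tw (k + 3) := by
    filter_upwards [h2] with k hk
    have hv1 : k < tw k := lt_tw k
    have hv0 := tw_pos k
    set v := tw k with hv
    have eu : tw (k + 1) = 2 ^ v := rfl
    have et : tw (k + 2) = 2 ^ 2 ^ v := rfl
    have en : tw (k + 3) = 2 ^ 2 ^ 2 ^ v := rfl
    set u := 2 ^ v with hu
    have hu2 : v + 1 ≤ u := Nat.lt_two_pow_self
    have hu4 : u + 1 ≤ 2 ^ u := Nat.lt_two_pow_self
    have h4 : 2 ^ u + 1 ≤ 2 ^ 2 ^ u := Nat.lt_two_pow_self
    -- the size
    have h5 : k + 6 ≤ 2 ^ 2 ^ u := by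
      have h6 : 2 ≤ u := by omega
      have h7 : 2 ^ 2 ≤ 2 ^ u := Nat.pow_le_pow_right (by norm_num) h6
      have h8 : 2 ^ 2 ^ 2 ≤ 2 ^ 2 ^ u := Nat.pow_le_pow_right (by norm_num) h7
      have h9 : 4 * 2 ^ (2 ^ u - 2) = 2 ^ 2 ^ u := by
        have : 2 ^ u = (2 ^ u - 2) + 2 := by omega
        conv_rhs => rw [this, pow_add]
        ring
      have h10 : 2 ^ u - 2 + 1 ≤ 2 ^ (2 ^ u - 2) := Nat.lt_two_pow_self
      omega
    have h6 : (2 ^ 2 ^ u + (k + 3) + 3).size ≤ 2 ^ u + 2 := by
      apply size_le_of_le_two_pow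
      rw [pow_succ]
      omega
    have h7 : (2 ^ 2 ^ u + (k + 3) + 3).size + 2 ≤ 2 ^ (u + 1) := by
      rw [pow_succ]
      have h8 : 2 ≤ u := by omega
      have h9 : 2 ^ 2 ≤ 2 ^ u := Nat.pow_le_pow_right (by norm_num) h8
      omega
    rw [en]
    calc ((2 ^ 2 ^ u + (k + 3) + 3).size + 2) ^ (2 * m ^ (k + 3 + 1))
        ≤ (2 ^ (u + 1)) ^ (2 * m ^ (k + 3 + 1)) := Nat.pow_le_pow_left h7 _
      _ = 2 ^ ((u + 1) * (2 * m ^ (k + 3 + 1))) := by rw [← pow_mul]
      _ ≤ 2 ^ 2 ^ u := by
        apply Nat.pow_le_pow_right (by norm_num)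
        have h8 : u + 1 ≤ 2 ^ (v + 1) := by rw [pow_succ]; omega
        have h9 : m ^ (k + 3 + 1) ≤ 2 ^ (m * (v + 4)) := by
          calc m ^ (k + 3 + 1) ≤ (2 ^ m) ^ (k + 3 + 1) :=
                Nat.pow_le_pow_left Nat.lt_two_pow_self.le _
            _ = 2 ^ (m * (k + 3 + 1)) := by rw [← pow_mul]
            _ ≤ 2 ^ (m * (v + 4)) := by
                apply Nat.pow_le_pow_right (by norm_num)
                apply Nat.mul_le_mul_left
                omega
        calc (u + 1) * (2 * m ^ (k + 3 + 1)) ≤ 2 ^ (v + 1) * (2 * 2 ^ (m * (v + 4))) :=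
              Nat.mul_le_mul h8 (Nat.mul_le_mul_left _ h9)
          _ = 2 ^ (v + 1 + 1 + m * (v + 4)) := by
            rw [pow_add 2 (v + 1 + 1), pow_succ 2 (v + 1)]; ring
          _ ≤ 2 ^ u := by
            apply Nat.pow_le_pow_right (by norm_num)
            calc v + 1 + 1 + m * (v + 4) = (m + 1) * v + 4 * m + 2 := by ring
              _ ≤ u := hk
  obtain ⟨N, hN⟩ := eventually_atTop.1 h3
  refine eventually_atTop.2 ⟨N + 3, fun i hi => ?_⟩
  obtain ⟨k, rfl⟩ : ∃ k, i = k + 3 := ⟨i - 3, by omega⟩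
  exact hN k (by omega)

end Pool.Agent.J4H45.OPT
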