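import Pool.Agent.J4H45.OPT.Emb
import Pool.Agent.J4H45.OPT.Tower

/-!
# The system with one more step, and with the axioms
-/

set_option autoImplicit false

namespace Pool.Agent.J4H45.OPT

open Pool.Agent.NPC Pool.Agent.H628R3.RO

/-! ### Tools -/

section

variable {α : Type} [TEnc α]

theorem p_take {v : α → List Bool} {n : α → ℕ} (hv : Poly v) (hn : UPoly n) :
    Poly (fun a => (v a).take (n a)) := by
  have h1 : UPoly (fun a => (v a).length - n a) :=
    UPoly.of_le (Poly.sub (Poly.length hv) hn.toPoly) (UPoly.length hv) fun a => Nat.sub_le _ _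
  refine (Poly.reverse (p_drop (Poly.reverse hv) h1)).congr fun a => ?_
  rw [List.reverse_drop, List.reverse_reverse, List.length_reverse]
  rcases le_or_gt (n a) (v a).length with h | h
  · congr 1
    omega
  · have h2 : (v a).length - n a = 0 := by omega
    rw [h2, Nat.sub_zero, List.take_length, List.take_of_length_le h.le]

theorem p_qs (M : Alg) {x t : α → List Bool} (hx : Poly x) (ht : Poly t) :
    Poly (fun a => qs M (x a) (t a)) := by
  have hD := H622R2.poly_of_polyTime M.poly
  have h1 : Poly (fun p : α × ℕ => p.1) := Poly.fst Poly.id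
  have h2 : Poly (fun p : α × ℕ => p.2) := Poly.snd Poly.id
  have h3 : UPoly (fun p : α × ℕ => min p.2 (t p.1).length) :=
    UPoly.of_le (Poly.min h2 (Poly.length (ht.comp h1))) (UPoly.length (ht.comp h1))
      fun a => min_le_right _ _
  refine (NPC.Poly.map (F := fun (a : α) (k : ℕ) =>
    (M.D (pairBits (x a) ((t a).take (min k (t a).length)))).tail) (UPoly.length ht).range
    (Poly.tail (hD.comp (H622R2.poly_pairBits (hx.comp h1) (p_take (ht.comp h1) h3))))).congr
    fun a => ?_
  unfold qs qu
  apply List.map_congr_left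
  intro k hk
  rw [List.mem_range] at hk
  rw [min_eq_left hk.le]

theorem mem_zip_map {β γ : Type} (f : β → γ) (l : List β) (x : β) (b : γ) :
    (x, b) ∈ l.zip (l.map f) ↔ x ∈ l ∧ f x = b := by
  induction l with
  | nil => simp
  | cons a l ih =>
    simp only [List.map_cons, List.zip_cons_cons, List.mem_cons, Prod.mk.injEq, ih]
    constructor
    · rintro (⟨rfl, rfl⟩ | ⟨h1, h2⟩)
      · exact ⟨Or.inl rfl, rfl⟩
      · exact ⟨Or.inr h1, h2⟩
    · rintro ⟨rfl | h1, h2⟩
      · exact Or.inl ⟨rfl, h2.symm⟩
      · exact Or.inr ⟨h1, h2⟩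

end

section

variable {O : Oracle → Oracle} (E : Emb O) (M : Alg) (i1 : ℕ)

/-- the input for the given system -/
def arg (w : List Bool) : List Bool :=
  if w.head? = some false then w.tail else
    if w.tail.head? = some false then w.tail.tail else []

/-- the step down from the statement `z` with proof `y` is in the range considered -/
def okB (y z : List Bool) : Bool :=
  decide (1 ≤ lvl z) && (decide (z = code (siz z) (lvl z)) && (decide (lvl z + 1 ≤ ix (siz z)) &&
    (decide (i1 + 1 ≤ ix (siz z)) && decide (y.length.size ^ 2 ≤ siz z))))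

/-- the statement is one of the axioms -/
def okC (x : List Bool) : Bool :=
  decide (x = code (siz x) (lvl x)) && (decide (ix (siz x) = lvl x + 1) && decide (i1 ≤ lvl x))

/-- the questions to ask because of the question `q` -/
def askC (z q : List Bool) : List (List Bool) :=
  (asks (siz z + (lvl z - 1)) 0 (lastn (siz z) (E.s q))).map E.g

/-- all the questions to ask -/
def askL (y t z : List Bool) : List (List Bool) := (qs M y t).flatMap (fun q => askC E z q)

/-- no candidate touched is a hit -/
def chkB (y t z : List Bool) (ans : List Bool) : Bool :=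
  (qs M y t).all (fun q => !(decide ((lastn (siz z) (E.s q)).length = siz z)) ||
    (askC E z q).any (fun r => decide ((r, false) ∈ (askL E M y t z).zip ans)))

theorem chkB_iff (A : Oracle) (y t z : List Bool) :
    chkB E M y t z ((askL E M y t z).map (O A)) = true ↔
      ∀ q ∈ qs M y t, (lastn (siz z) (E.s q)).length = siz z →
        ¬ Hit (siz z + (lvl z - 1)) (0, lastn (siz z) (E.s q)) A := by
  unfold chkB
  rw [List.all_eq_true]
  refine forall₂_congr fun q hq => ?_
  rw [Bool.or_eq_true, Bool.not_eq_true', decide_eq_false_iff_not, ← imp_iff_not_or]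
  refine imp_congr_right fun _ => ?_
  rw [List.any_eq_true]
  simp only [decide_eq_true_eq, mem_zip_map]
  constructor
  · rintro ⟨r, hr, -, h2⟩ hh
    obtain ⟨r', hr', rfl⟩ := List.mem_map.1 hr
    obtain ⟨i, hi, rfl⟩ := List.mem_map.1 hr'
    rw [E.emb, hh i (List.mem_range.1 hi)] at h2
    simp at h2
  · intro h
    unfold Hit at h
    push Not at h
    obtain ⟨i, hi, h3⟩ := h
    have h4 : E.g (pos 0 i (lastn (siz z) (E.s q))) ∈ askC E z q :=
      List.mem_map.2 ⟨_, List.mem_map.2 ⟨i, List.mem_range.2 hi, rfl⟩, rfl⟩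
    refine ⟨_, h4, List.mem_flatMap.2 ⟨q, hq, h4⟩, ?_⟩
    rw [E.emb]
    simpa using h3

/-- The new system, made from the system `P` computed by `M`. -/
def Qsys (A : Oracle) (P : List Bool → List Bool) (w : List Bool) : List Bool :=
  if w.head? = some true ∧ w.tail.head? = some false ∧ okB i1 (arg w) (P (arg w)) = true ∧
      chkB E M (arg w) (trs M (O A) (arg w)) (P (arg w))
        ((askL E M (arg w) (trs M (O A) (arg w)) (P (arg w))).map (O A)) = true then
    code (siz (P (arg w))) (lvl (P (arg w)) - 1)
  else if w.head? = some true ∧ w.tail.head? = some true ∧ okC i1 w.tail.tail = true then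
    w.tail.tail
  else P (arg w)

/-! ### It is computable in polynomial time -/

section

variable {α : Type} [TEnc α]

theorem p_arg {w : α → List Bool} (hw : Poly w) : Poly (fun a => arg (w a)) :=
  Poly.ite (Poly.decide_eq (Poly.head? hw) (NPC.Poly.const _)) (Poly.tail hw)
    (Poly.ite (Poly.decide_eq (Poly.head? (Poly.tail hw)) (NPC.Poly.const _))
      (Poly.tail (Poly.tail hw)) (NPC.Poly.const []))

theorem p_okB {y z : α → List Bool} (hy : Poly y) (hz : Poly z) :
    Poly (fun a => okB i1 (y a) (z a)) := by
  have h1 := u_lvl hz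
  have h2 := u_siz hz
  have h3 := p_ix h2
  have h4 : UPoly (fun a => (y a).length.size) := u_size (Poly.length hy)
  refine Poly.and (Poly.decide_le (NPC.Poly.const 1) h1.toPoly)
    (Poly.and (Poly.decide_eq hz (p_code h2 h1)) (Poly.and
      (Poly.decide_le (Poly.succ h1.toPoly) h3) (Poly.and
        (Poly.decide_le (NPC.Poly.const (i1 + 1)) h3) (Poly.decide_le ?_ h2.toPoly))))
  exact (UPoly.mul h4 h4).toPoly.congr fun a => (pow_two _).symm

theorem p_okC {x : α → List Bool} (hx : Poly x) : Poly (fun a => okC i1 (x a)) := by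
  have h1 := u_lvl hx
  have h2 := u_siz hx
  have h3 := p_ix h2
  exact Poly.and (Poly.decide_eq hx (p_code h2 h1)) (Poly.and
    (Poly.decide_eq h3 (Poly.succ h1.toPoly)) (Poly.decide_le (NPC.Poly.const i1) h1.toPoly))

theorem u_pred {n : α → ℕ} (hn : UPoly n) : UPoly (fun a => n a - 1) :=
  UPoly.of_le (Poly.sub hn.toPoly (NPC.Poly.const 1)) hn fun _ => Nat.sub_le _ _

theorem p_askC {z q : α → List Bool} (hz : Poly z) (hq : Poly q) :
    Poly (fun a => askC E (z a) (q a)) :=
  p_mapg E (p_asks (UPoly.add (u_siz hz) (u_pred (u_lvl hz))) (UPoly.const 0)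
    (p_lastn (u_siz hz) (E.ps.comp hq)))

theorem p_askL {y t z : α → List Bool} (hy : Poly y) (ht : Poly t) (hz : Poly z) :
    Poly (fun a => askL E M (y a) (t a) (z a)) :=
  NPC.Poly.flatMap (F := fun a q => askC E (z a) q) (p_qs M hy ht)
    (p_askC E (hz.comp (Poly.fst Poly.id)) (Poly.snd Poly.id))

theorem p_chkB {y t z ans : α → List Bool} (hy : Poly y) (ht : Poly t) (hz : Poly z)
    (ha : Poly ans) : Poly (fun a => chkB E M (y a) (t a) (z a) (ans a)) := by
  have h1 : Poly (fun a => (askL E M (y a) (t a) (z a)).zip (ans a)) :=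
    Poly.zip (p_askL E M hy ht hz) ha
  refine NPC.Poly.all (p := fun a q => !(decide ((lastn (siz (z a)) (E.s q)).length =
      siz (z a))) || (askC E (z a) q).any
    (fun r => decide ((r, false) ∈ (askL E M (y a) (t a) (z a)).zip (ans a)))) (p_qs M hy ht) ?_
  have f1 : Poly (fun p : α × List Bool => p.1) := Poly.fst Poly.id
  have f2 : Poly (fun p : α × List Bool => p.2) := Poly.snd Poly.id
  refine Poly.or (Poly.not (Poly.decide_eq (Poly.length (p_lastn (u_siz (hz.comp f1))
    (E.ps.comp f2))) (u_siz (hz.comp f1)).toPoly)) ?_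
  refine NPC.Poly.any (p := fun (p : α × List Bool) r =>
    decide ((r, false) ∈ (askL E M (y p.1) (t p.1) (z p.1)).zip (ans p.1)))
    (p_askC E (hz.comp f1) f2) ?_
  have g1 : Poly (fun p : (α × List Bool) × List Bool => p.1.1) := Poly.fst (Poly.fst Poly.id)
  have g2 : Poly (fun p : (α × List Bool) × List Bool => p.2) := Poly.snd Poly.id
  exact (Poly.decide_mem (Poly.pair g2 (NPC.Poly.const false)) (h1.comp g1)).congr fun a =>
    decide_eq_decide.2 Iff.rfl

end

theorem isFP_chk (A : Oracle) : IsFP (O A) (fun v => [chkB E M (unpair v).1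
    (unpair (unpair v).2).1 (unpair (unpair v).2).2 ((askL E M (unpair v).1
      (unpair (unpair v).2).1 (unpair (unpair v).2).2).map (O A))]) := by
  have h1 : Poly (fun v : List Bool => (unpair v).1) := Poly.fst poly_unpair
  have h2 : Poly (fun v : List Bool => unpair (unpair v).2) :=
    poly_unpair.comp (Poly.snd poly_unpair)
  refine IsFP.tt (Q := fun v => askL E M (unpair v).1 (unpair (unpair v).2).1
      (unpair (unpair v).2).2)
    (H := fun p => [chkB E M (unpair p.1).1 (unpair (unpair p.1).2).1 (unpair (unpair p.1).2).2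
      p.2]) (p_askL E M h1 (Poly.fst h2) (Poly.snd h2)) ?_
  have h3 : Poly (fun p : List Bool × List Bool => p.1) := Poly.fst Poly.id
  exact Poly.cons (p_chkB E M (h1.comp h3) ((Poly.fst h2).comp h3) ((Poly.snd h2).comp h3)
    (Poly.snd Poly.id)) (NPC.Poly.const [])

theorem isFP_Qsys {A : Oracle} {P : List Bool → List Bool}
    (hM : ∀ x, M.out (O A) x = some (P x)) : IsFP (O A) (Qsys E M i1 A P) := by
  have h1 : IsFP (O A) (fun w => pairBits (trs M (O A) (arg w)) (P (arg w))) :=
    IsFP.comp (isFP_rec hM) (IsFP.of_poly (p_arg Poly.id))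
  have hw : Poly (fun p : List Bool × List Bool × List Bool => p.1) := Poly.fst Poly.id
  have hf : Poly (fun p : List Bool × List Bool × List Bool => p.2.1) :=
    Poly.fst (Poly.snd Poly.id)
  have hg : Poly (fun p : List Bool × List Bool × List Bool => p.2.2) :=
    Poly.snd (Poly.snd Poly.id)
  have hz : Poly (fun p : List Bool × List Bool × List Bool => (unpair p.2.1).2) :=
    Poly.snd (poly_unpair.comp hf)
  have h2 := IsFP.seq h1 (isFP_chk E M A)
    (φ := fun p => pairBits (arg p.1) p.2)
    (ψ := fun p => if p.1.head? = some true ∧ p.1.tail.head? = some false ∧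
        okB i1 (arg p.1) (unpair p.2.1).2 = true ∧ p.2.2 = [true] then
      code (siz (unpair p.2.1).2) (lvl (unpair p.2.1).2 - 1)
      else if p.1.head? = some true ∧ p.1.tail.head? = some true ∧
        okC i1 p.1.tail.tail = true then p.1.tail.tail else (unpair p.2.1).2)
    (H622R2.poly_pairBits (p_arg (Poly.fst Poly.id)) (Poly.snd Poly.id)) ?_
  · obtain ⟨N, hN⟩ := h2
    refine ⟨N, fun w => ?_⟩
    rw [hN w]
    simp only [unpair_pairBits, List.cons.injEq, and_true]
    rfl
  · have t1 : Poly (fun p : List Bool × List Bool × List Bool =>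
        decide (p.1.head? = some true)) :=
      Poly.decide_eq (Poly.head? hw) (NPC.Poly.const _)
    have t2 : Poly (fun p : List Bool × List Bool × List Bool =>
        decide (p.1.tail.head? = some false)) :=
      Poly.decide_eq (Poly.head? (Poly.tail hw)) (NPC.Poly.const _)
    have t3 : Poly (fun p : List Bool × List Bool × List Bool =>
        decide (p.1.tail.head? = some true)) :=
      Poly.decide_eq (Poly.head? (Poly.tail hw)) (NPC.Poly.const _)
    exact Poly.ite (Poly.decide_and t1 (Poly.decide_and t2 (Poly.decide_and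
        (Poly.decide_bool (p_okB i1 (p_arg hw) hz))
        (Poly.decide_eq hg (NPC.Poly.const [true])))))
      (p_code (u_siz hz) (u_pred (u_lvl hz)))
      (Poly.ite (Poly.decide_and t1 (Poly.decide_and t3
        (Poly.decide_bool (p_okC i1 (Poly.tail (Poly.tail hw)))))) (Poly.tail (Poly.tail hw)) hz)

/-! ### The values -/

theorem Qsys_false (A : Oracle) (P : List Bool → List Bool) (w : List Bool) :
    Qsys E M i1 A P (false :: w) = P w := by
  unfold Qsys
  rw [if_neg (by simp), if_neg (by simp)]
  simp [arg]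

theorem Qsys_axiom (A : Oracle) (P : List Bool → List Bool) {i : ℕ} (hi : i1 ≤ i) :
    Qsys E M i1 A P (true :: true :: code (tw i) i) = code (tw i) i := by
  unfold Qsys
  rw [if_neg (by simp), if_pos]
  · simp
  · refine ⟨by simp, by simp, ?_⟩
    simp only [List.tail_cons, okC, siz_code, lvl_code, ix_tw, decide_true, Bool.true_and]
    simpa using hi

theorem Qsys_step (A : Oracle) (P : List Bool → List Bool) {i j : ℕ} (hi : i1 ≤ i)
    (hj : j + 1 ≤ i) {y : List Bool} (hy : Sh (tw i) y.length)
    (hP : P y = code (tw i) (j + 1)) (hb : A ∉ BadT (tw i) 0) :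
    Qsys E M i1 A P (true :: false :: y) = code (tw i) j := by
  have ha : arg (true :: false :: y) = y := by simp [arg]
  have h1 : okB i1 y (code (tw i) (j + 1)) = true := by
    simp only [okB, siz_code, lvl_code, ix_tw, decide_true, Bool.true_and]
    unfold Sh at hy
    simp only [Bool.and_eq_true, decide_eq_true_eq]
    exact ⟨by omega, by omega, by omega, hy⟩
  unfold Qsys
  rw [ha, hP]
  rw [if_pos, siz_code, lvl_code]
  · rfl
  refine ⟨by simp, by simp, h1, ?_⟩
  rw [chkB_iff, siz_code, lvl_code]
  intro q hq hl hh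
  exact hb (mem_BadT.2 ⟨_, hl, fun b hbl => hh b (by omega)⟩)

end

end Pool.Agent.J4H45.OPT
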