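import Pool.Agent.H628R3.RO.Defs

/-!
# Proof systems optimal up to quasi-polynomial blow-up
-/

set_option autoImplicit false

namespace Pool.Agent.J4H45.OPT

open Pool.Agent.NPC Pool.Agent.H628R3.RO

/-- `P` is a proof system for `L` relative to `A` which simulates every other proof system `Q` for
`L` relative to `A` with at most quasi-polynomial blow-up of the length of the proofs: every
`Q`-proof `w` of length `n` can be replaced by a `P`-proof `v` of the same statement of length at
most `2 ^ q (size n)`, where `q` is a polynomial depending on `Q` and `size n` is the number of
binary digits of `n`. -/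
def IsQOptimal (A : Oracle) (L : Set (List Bool)) (P : List Bool → List Bool) : Prop :=
  IsProofSystem A L P ∧ ∀ Q, IsProofSystem A L Q →
    ∃ q : Polynomial ℕ, ∀ w, ∃ v, P v = Q w ∧ v.length ≤ 2 ^ q.eval w.length.size

end Pool.Agent.J4H45.OPT
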