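import Pool.Agent.J4H45.OPT.Over
import Pool.Agent.J4H45.OPT.Emb
import Pool.Agent.J4H45.OPT.Tower

/-!
# The events and their probabilities
-/

set_option autoImplicit false

namespace Pool.Agent.J4H45.OPT

open MeasureTheory Filter Pool.Agent.NPC Pool.Agent.H628R3.RO

section

variable (O : Oracle → Oracle) (M : Alg)

/-- the algorithm has a short proof of a false statement about block `i` -/
def Er (i : ℕ) : Set Oracle :=
  {A | ∃ y : List Bool, Sh (tw i) y.length ∧ ∃ j ≤ i, M.out (O A) y = some (code (tw i) j) ∧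
    A ∈ BadT (tw i) j}

/-- there were no errors at the blocks `i0, …, i - 1` -/
def Dn (i0 i : ℕ) : Set Oracle := {A | ∀ i', i0 ≤ i' → i' < i → A ∉ Er O M i'}

/-- one step down the ladder leads to an error -/
def Up (i : ℕ) : Set Oracle :=
  {A | A ∉ Er O M i ∧ ∃ y : List Bool, Sh (tw i) y.length ∧ ∃ j, j + 1 ≤ i ∧
    M.out (O A) y = some (code (tw i) (j + 1)) ∧ A ∈ BadT (tw i) j ∧
    ∀ w : List Bool, w.length = tw i → Hit (tw i + j) (0, w) A → Free O M A y w}

/-- the algorithm has a short proof that there is no hit -/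
def Zr (i : ℕ) : Set Oracle :=
  {A | A ∉ BadT (tw i) 0 ∧ ∃ y : List Bool, Sh (tw i) y.length ∧
    M.out (O A) y = some (code (tw i) 0)}

end

variable {O : Oracle → Oracle}

theorem loc_Er (E : Emb O) (M : Alg) : ∃ N, ∀ i ≥ N,
    Loc {x | x.length ≤ tw (i + 1)} (Er O M i) := by
  obtain ⟨qb, hq⟩ := out_congr_emb E M
  obtain ⟨N1, h1⟩ := sh_poly qb
  obtain ⟨N2, h2⟩ := eventually_atTop.1
    (H529R3.Lev.poly_le_two_pow (Polynomial.C 3 * Polynomial.X + Polynomial.C 2))
  refine ⟨max N1 N2, fun i hi => loc_of_imp fun A A' hA => ?_⟩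
  have hi1 : N1 ≤ tw i := (le_max_left _ _).trans (hi.trans (lt_tw i).le)
  have hi2 : N2 ≤ tw i := (le_max_right _ _).trans (hi.trans (lt_tw i).le)
  rintro ⟨y, hy, j, hj, ho, hb⟩
  have e1 : M.out (O A) y = M.out (O A') y := by
    refine hq A A' y y.length le_rfl fun x hx => hA x ?_
    have h3 := h1 (tw i) hi1 y.length hy
    change x.length ≤ 2 ^ tw i
    omega
  refine ⟨y, hy, j, hj, by rw [← e1, ho], ?_⟩
  refine (loc_BadT (tw i) j A A' fun x hx => hA x ?_).1 hb
  have h3 := length_le_spotsT (n := tw i) (j := j) (hj.trans (lt_tw i).le) x hx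
  have h4 := h2 (tw i) hi2
  simp only [Polynomial.eval_add, Polynomial.eval_mul, Polynomial.eval_C,
    Polynomial.eval_X] at h4
  change x.length ≤ 2 ^ tw i
  omega

theorem loc_Dn (E : Emb O) (M : Alg) : ∃ N, ∀ i0 ≥ N, ∀ i,
    Loc {x | x.length ≤ tw i} (Dn O M i0 i) := by
  obtain ⟨N, hN⟩ := loc_Er E M
  refine ⟨N, fun i0 hi0 i => ?_⟩
  intro A A' hA
  refine forall₃_congr fun i' h1 h2 => not_congr ?_
  refine hN i' (hi0.trans h1) A A' fun x hx => hA x ?_
  exact le_trans hx (tw_strictMono.monotone h2)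

theorem measurable_Er (E : Emb O) (M : Alg) : ∃ N, ∀ i ≥ N, MeasurableSet (Er O M i) := by
  obtain ⟨N, hN⟩ := loc_Er E M
  exact ⟨N, fun i hi => measurableSet_of_loc (finite_length_le _) (hN i hi)⟩

/-! ### One step of the ladder -/

/-- the words of length `n` -/
def wds (n : ℕ) : Finset (List Bool) := Finset.univ.image (fun v : Fin n → Bool => List.ofFn v)

theorem mem_wds {n : ℕ} {w : List Bool} : w ∈ wds n ↔ w.length = n := by
  unfold wds
  rw [Finset.mem_image]
  constructor
  · rintro ⟨v, -, rfl⟩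
    rw [List.length_ofFn]
  · rintro rfl
    exact ⟨fun i => w.get i, Finset.mem_univ _, List.ofFn_get w⟩

theorem card_wds (n : ℕ) : (wds n).card = 2 ^ n := by
  unfold wds
  rw [Finset.card_image_of_injective _ List.ofFn_injective, Finset.card_univ]
  simp

/-- the positions changed -/
def upJ (n j : ℕ) (w : List Bool) : Finset (List Bool) := {pos 0 (n + j) w, pos 0 (n + j + 1) w}

/-- the new values -/
def upV (n j : ℕ) (w : List Bool) : Oracle := fun x => decide (x = pos 0 (n + j) w)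

/-- the only word with at least `m + 1` ones is `w`, and it has exactly `m + 1` ones -/
def uniq (n m : ℕ) (w : List Bool) : Set Oracle :=
  {A | Hit (m + 1) (0, w) A ∧ A (pos 0 (m + 1) w) = false ∧
    ∀ w' : List Bool, w'.length = n → w' ≠ w → ¬ Hit (m + 1) (0, w') A}

theorem loc_uniq (n m : ℕ) {w : List Bool} (hw : w.length = n) :
    Loc {x | x.length ≤ m + n + 3} (uniq n m w) := by
  intro A A' h
  have h1 : ∀ w' : List Bool, w'.length = n →
      (Hit (m + 1) (0, w') A ↔ Hit (m + 1) (0, w') A') := by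
    intro w' hw'
    refine forall₂_congr fun b hb => ?_
    rw [h _ (by change (pos 0 b w').length ≤ _; rw [length_pos]; omega)]
  have h2 : A (pos 0 (m + 1) w) = A' (pos 0 (m + 1) w) :=
    h _ (by change (pos 0 (m + 1) w).length ≤ _; rw [length_pos]; omega)
  unfold uniq
  simp only [Set.mem_ofPred_eq]
  rw [h1 w hw, h2]
  refine and_congr_right fun _ => and_congr_right fun _ => ?_
  refine forall₃_congr fun w' hw' _ => ?_
  rw [h1 w' hw']

theorem Hit.mono {m m' : ℕ} {κ : Cand} {A : Oracle} (h : Hit m κ A) (hm : m' ≤ m) :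
    Hit m' κ A := fun b hb => h b (by omega)

theorem uniq_disjoint {n m m' : ℕ} {w w' : List Bool} (hw : w.length = n) (hw' : w'.length = n)
    (hne : (w, m) ≠ (w', m')) {A : Oracle} (h : A ∈ uniq n m w) : A ∉ uniq n m' w' := by
  intro h'
  obtain ⟨a1, a2, a3⟩ := h
  obtain ⟨b1, b2, b3⟩ := h'
  by_cases hww : w = w'
  · subst hww
    rcases lt_trichotomy m m' with h1 | h1 | h1
    · have := b1 (m + 1) (by omega)
      simp only at this
      rw [a2] at this
      simp at this
    · subst h1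
      exact hne rfl
    · have := a1 (m' + 1) (by omega)
      simp only at this
      rw [b2] at this
      simp at this
  · rcases le_or_gt m m' with h1 | h1
    · exact a3 w' hw' (fun h => hww h.symm) (Hit.mono b1 (by omega))
    · exact b3 w hw hww (Hit.mono a1 (by omega))

theorem ovr_up_of_len {n j : ℕ} {w : List Bool} (hw : w.length = n) (A : Oracle) {x : List Bool}
    (hx : x.length ≤ n) : ovr (upJ n j w) (upV n j w) A x = A x := by
  refine ovr_of_notMem fun h => ?_
  unfold upJ at h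
  rw [Finset.mem_insert, Finset.mem_singleton] at h
  rcases h with rfl | rfl <;> rw [length_pos] at hx <;> omega

theorem up_le (E : Emb O) (M : Alg) : ∃ N, ∀ i0 ≥ N, ∀ i ≥ i0,
    randomOracle (Dn O M i0 i ∩ Up O M i) ≤ 4 * randomOracle (Dn O M i0 i ∩ Er O M i) := by
  obtain ⟨N1, h1⟩ := loc_Dn E M
  obtain ⟨N2, h2⟩ := measurable_Er E M
  refine ⟨max N1 N2, fun i0 hi0 i hi => ?_⟩
  have hD := h1 i0 ((le_max_left _ _).trans hi0) i
  have hE := h2 i (((le_max_right _ _).trans hi0).trans hi)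
  set n := tw i with hn
  have key := plant_count (ι := List Bool × ℕ) (wds n ×ˢ Finset.range i)
    (fun p => upJ n p.2 p.1) (fun p => upV n p.2 p.1) (fun p => uniq n (n + p.2) p.1)
    (S := Dn O M i0 i ∩ Up O M i) (S' := Dn O M i0 i ∩ Er O M i)
    ((measurableSet_of_loc (finite_length_le _) hD).inter hE)
    (fun p hp => measurableSet_of_loc (finite_length_le _)
      (loc_uniq n (n + p.2) (mem_wds.1 (Finset.mem_product.1 hp).1)))
    (fun p hp p' hp' hne A hA => uniq_disjoint (mem_wds.1 (Finset.mem_product.1 hp).1)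
      (mem_wds.1 (Finset.mem_product.1 hp').1) (fun h => hne (by
        rw [Prod.mk.injEq] at h
        exact Prod.ext h.1 (by omega))) hA)
    (c := 2) (fun p _ => Finset.card_le_two) 1 ?_
  · rw [Nat.cast_one, one_mul] at key
    refine key.trans (le_of_eq ?_)
    norm_num
  rintro A ⟨hAD, hAE, y, hy, j, hj, ho, hb, hfree⟩
  obtain ⟨w, hw, hh⟩ := mem_BadT.1 hb
  have hno : ∀ w' : List Bool, w'.length = n → ¬ Hit (n + j + 1) (0, w') A := by
    intro w' hw' hh'
    exact hAE ⟨y, hy, j + 1, hj, ho, mem_BadT.2 ⟨w', hw', hh'⟩⟩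
  refine ⟨{(w, j)}, ?_, by simp, ?_⟩
  · rw [Finset.singleton_subset_iff, Finset.mem_product, Finset.mem_range]
    exact ⟨mem_wds.2 hw, by simpa using hj⟩
  · intro p hp
    rw [Finset.mem_singleton] at hp
    subst hp
    simp only
    set A' := ovr (upJ n j w) (upV n j w) A with hA'
    have e1 : ∀ x : List Bool, x ∉ upJ n j w → A' x = A x := fun x hx => ovr_of_notMem hx
    have e2 : ∀ b (w' : List Bool), pos 0 b w' ∈ upJ n j w ↔ w' = w ∧ (b = n + j ∨ b = n + j + 1) := by
      intro b w'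
      unfold upJ
      rw [Finset.mem_insert, Finset.mem_singleton]
      constructor
      · rintro (h | h)
        · have := pos_inj h
          exact ⟨this.2.2, Or.inl this.2.1⟩
        · have := pos_inj h
          exact ⟨this.2.2, Or.inr this.2.1⟩
      · rintro ⟨rfl, rfl | rfl⟩
        · exact Or.inl rfl
        · exact Or.inr rfl
    have e3 : Hit (n + j + 1) (0, w) A' := by
      intro b hbl
      simp only
      by_cases hbe : b = n + j
      · subst hbe
        rw [hA', ovr_of_mem ((e2 _ _).2 ⟨rfl, Or.inl rfl⟩)]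
        simp [upV]
      · rw [e1 _ (fun h => by
          have := ((e2 _ _).1 h).2
          omega)]
        exact hh b (by omega)
    refine ⟨⟨?_, ?_⟩, ?_⟩
    · exact (hD A A' fun x hx => (ovr_up_of_len hw A hx).symm).1 hAD
    · refine ⟨y, hy, j + 1, hj, ?_, mem_BadT.2 ⟨w, hw, e3⟩⟩
      rw [← ho]
      refine hfree w hw hh A' fun x hx => e1 x fun h => ?_
      unfold upJ at h
      rw [Finset.mem_insert, Finset.mem_singleton] at h
      rcases h with h | h
      · exact hx _ h
      · exact hx _ h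
    · refine ⟨e3, ?_, ?_⟩
      · rw [hA', ovr_of_mem ((e2 _ _).2 ⟨rfl, Or.inr rfl⟩)]
        unfold upV
        rw [decide_eq_false_iff_not]
        intro h
        have := (pos_inj h).2.1
        omega
      · intro w' hw' hne hh'
        refine hno w' hw' fun b hbl => ?_
        rw [← hh' b hbl]
        simp only
        rw [e1 _ (fun h => hne ((e2 _ _).1 h).1)]

/-! ### The last step -/

/-- the only word with at least `n` ones is `w` -/
def uni (n : ℕ) (w : List Bool) : Set Oracle :=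
  {A | Hit n (0, w) A ∧ ∀ w' : List Bool, w'.length = n → w' ≠ w → ¬ Hit n (0, w') A}

theorem loc_uni (n : ℕ) {w : List Bool} (hw : w.length = n) :
    Loc {x | x.length ≤ n + n + 2} (uni n w) := by
  intro A A' h
  have h1 : ∀ w' : List Bool, w'.length = n → (Hit n (0, w') A ↔ Hit n (0, w') A') := by
    intro w' hw'
    refine forall₂_congr fun b hb => ?_
    rw [h _ (by change (pos 0 b w').length ≤ _; rw [length_pos]; omega)]
  unfold uni
  simp only [Set.mem_ofPred_eq]
  rw [h1 w hw]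
  refine and_congr_right fun _ => forall₃_congr fun w' hw' _ => ?_
  rw [h1 w' hw']

theorem zr_le (E : Emb O) (M : Alg) : ∃ N, ∀ i0 ≥ N, ∀ i ≥ i0,
    randomOracle (Dn O M i0 i ∩ Zr O M i) ≤ 2 * randomOracle (Dn O M i0 i ∩ Er O M i) := by
  classical
  obtain ⟨N1, h1⟩ := loc_Dn E M
  obtain ⟨N2, h2⟩ := measurable_Er E M
  obtain ⟨N3, h3⟩ := sh_poly M.p
  refine ⟨max (max N1 N2) N3, fun i0 hi0 i hi => ?_⟩
  have hD := h1 i0 (((le_max_left _ _).trans (le_max_left _ _)).trans hi0) i
  have hE := h2 i ((((le_max_right _ _).trans (le_max_left _ _)).trans hi0).trans hi)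
  have hp := h3 (tw i) ((((le_max_right _ _).trans hi0).trans hi).trans (lt_tw i).le)
  have hn1 := tw_pos i
  set n := tw i with hn
  have key := plant_count (ι := List Bool) (wds n) (fun w => spots n (0, w)) (fun _ _ => true)
    (fun w => uni n w) (S := Dn O M i0 i ∩ Zr O M i) (S' := Dn O M i0 i ∩ Er O M i)
    ((measurableSet_of_loc (finite_length_le _) hD).inter hE)
    (fun w hw => measurableSet_of_loc (finite_length_le _) (loc_uni n (mem_wds.1 hw)))
    (fun w hw w' hw' hne A hA hA' => hA'.2 w (mem_wds.1 hw) hne hA.1)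
    (c := n) (fun w _ => (M2.card_spots n (0, w)).le) (2 ^ (n - 1)) ?_
  · have e1 : ((2 ^ (n - 1) : ℕ) : ENNReal) = 2 ^ (n - 1) := by push_cast; rfl
    have e2 : (2 : ENNReal) ^ n = 2 ^ (n - 1) * 2 := by
      rw [← pow_succ]
      congr 1
      omega
    rw [e1, e2, mul_assoc] at key
    have e3 : (2 : ENNReal) ^ (n - 1) ≠ 0 := pow_ne_zero _ (by norm_num)
    have e4 : (2 : ENNReal) ^ (n - 1) ≠ ⊤ := ENNReal.pow_ne_top (by norm_num)
    exact (ENNReal.mul_le_mul_iff_right e3 e4).1 key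
  rintro A ⟨hAD, hAB, y, hy, ho⟩
  obtain ⟨T, hT, hfree⟩ := exists_touched E M A y _ n ho
  have hno : ∀ w' : List Bool, w'.length = n → ¬ Hit n (0, w') A := by
    intro w' hw' hh'
    exact hAB (mem_BadT.2 ⟨w', hw', hh'⟩)
  refine ⟨wds n \ T, Finset.sdiff_subset, ?_, ?_⟩
  · have h4 := Finset.le_card_sdiff T (wds n)
    rw [card_wds] at h4
    have h5 := hp y.length hy
    have h6 : 2 ^ n = 2 ^ (n - 1) * 2 := by
      rw [← pow_succ]
      congr 1
      omega
    omega
  · intro w hw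
    rw [Finset.mem_sdiff, mem_wds] at hw
    obtain ⟨hw, hwT⟩ := hw
    set A' := ovr (spots n (0, w)) (fun _ => true) A with hA'
    have e1 : ∀ x : List Bool, x ∉ spots n (0, w) → A' x = A x := fun x hx => ovr_of_notMem hx
    have e2 : ∀ x ∈ spots n (0, w), ∃ b, x = pos 0 b w := by
      intro x hx
      obtain ⟨b, _, hb⟩ := M2.mem_spots.1 hx
      exact ⟨b, hb.symm⟩
    have e3 : Hit n (0, w) A' := by
      intro b hb
      rw [hA', ovr_of_mem (M2.mem_spots.2 ⟨b, hb, rfl⟩)]
    have e4 : ∀ x : List Bool, x.length ≤ n → x ∉ spots n (0, w) := by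
      intro x hx h
      obtain ⟨b, rfl⟩ := e2 x h
      rw [length_pos] at hx
      omega
    refine ⟨⟨?_, ?_⟩, ?_⟩
    · exact (hD A A' fun x hx => (e1 x (e4 x hx)).symm).1 hAD
    · refine ⟨y, hy, 0, Nat.zero_le _, ?_, mem_BadT.2 ⟨w, hw, e3⟩⟩
      rw [← ho]
      refine hfree w hw hwT A' fun x hx => e1 x fun h => ?_
      obtain ⟨b, hb⟩ := e2 x h
      exact hx b hb
    · refine ⟨e3, ?_⟩
      intro w' hw' hne hh'
      refine hno w' hw' fun b hbl => ?_
      rw [← hh' b hbl]
      simp only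
      rw [e1 _ (fun h => by
        obtain ⟨b', hb'⟩ := e2 _ h
        exact hne (pos_inj hb').2.2)]

/-! ### The Borel–Cantelli lemma -/

theorem sum_first_le (M : Alg) {i0 : ℕ} (hm : ∀ i ≥ i0, MeasurableSet (Dn O M i0 i ∩ Er O M i)) :
    ∑' k, randomOracle (Dn O M i0 (i0 + k) ∩ Er O M (i0 + k)) ≤ 1 := by
  rw [← measure_iUnion]
  · exact prob_le_one
  · intro k k' hne
    rw [Function.onFun, Set.disjoint_left]
    rintro A ⟨h1, h2⟩ ⟨h3, h4⟩
    rcases lt_or_gt_of_ne hne with h | h
    · exact h3 (i0 + k) (by omega) (by omega) h2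
    · exact h1 (i0 + k') (by omega) (by omega) h4
  · intro k
    exact hm _ (by omega)

theorem ae_finite (M : Alg) {i0 : ℕ} {X : ℕ → Set Oracle} {c : ℕ}
    (hm : ∀ i ≥ i0, MeasurableSet (Dn O M i0 i ∩ Er O M i))
    (hX : ∀ i ≥ i0, randomOracle (Dn O M i0 i ∩ X i) ≤
      c * randomOracle (Dn O M i0 i ∩ Er O M i)) :
    ∀ᵐ A ∂randomOracle, (∀ i, A ∉ Er O M i) → ∀ᶠ i in atTop, A ∉ X i := by
  have h1 : ∑' k, randomOracle (Dn O M i0 (i0 + k) ∩ X (i0 + k)) ≠ ⊤ := by
    have h2 : ∑' k, randomOracle (Dn O M i0 (i0 + k) ∩ X (i0 + k)) ≤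
        ∑' k, (c : ENNReal) * randomOracle (Dn O M i0 (i0 + k) ∩ Er O M (i0 + k)) :=
      ENNReal.tsum_le_tsum fun k => hX _ (by omega)
    rw [ENNReal.tsum_mul_left] at h2
    have h3 := sum_first_le M hm
    have h4 : (c : ENNReal) * ∑' k, randomOracle (Dn O M i0 (i0 + k) ∩ Er O M (i0 + k)) ≤ c * 1 := by
      gcongr
    exact ne_top_of_le_ne_top (by simp) (h2.trans h4)
  filter_upwards [ae_eventually_notMem h1] with A hA hE
  obtain ⟨N, hN⟩ := eventually_atTop.1 hA
  refine eventually_atTop.2 ⟨i0 + N, fun i hi hX => ?_⟩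
  obtain ⟨k, rfl⟩ : ∃ k, i = i0 + k := ⟨i - i0, by omega⟩
  exact hN k (by omega) ⟨fun i' _ _ => hE i', hX⟩

/-- Almost surely: if the algorithm makes no errors then steps down the ladder lead to errors
only finitely often, and there are only finitely many short proofs at the lowest level. -/
theorem ae_sound (E : Emb O) (M : Alg) : ∀ᵐ A ∂randomOracle, (∀ i, A ∉ Er O M i) →
    ∀ᶠ i in atTop, A ∉ Up O M i ∧ A ∉ Zr O M i := by
  obtain ⟨N1, h1⟩ := loc_Dn E M
  obtain ⟨N2, h2⟩ := measurable_Er E M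
  obtain ⟨N3, h3⟩ := up_le E M
  obtain ⟨N4, h4⟩ := zr_le E M
  obtain ⟨i0, hi1, hi2, hi3, hi4⟩ : ∃ i0, N1 ≤ i0 ∧ N2 ≤ i0 ∧ N3 ≤ i0 ∧ N4 ≤ i0 :=
    ⟨N1 + N2 + N3 + N4, by omega, by omega, by omega, by omega⟩
  have hm : ∀ i ≥ i0, MeasurableSet (Dn O M i0 i ∩ Er O M i) := fun i hi =>
    (measurableSet_of_loc (finite_length_le _) (h1 i0 hi1 i)).inter (h2 i (hi2.trans hi))
  have a1 := ae_finite (X := Up O M) (c := 4) M hm fun i hi => by
    have := h3 i0 hi3 i hi
    simpa using this
  have a2 := ae_finite (X := Zr O M) (c := 2) M hm fun i hi => by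
    have := h4 i0 hi4 i hi
    simpa using this
  filter_upwards [a1, a2] with A b1 b2 hE
  exact (b1 hE).and (b2 hE)

/-! ### The bad events -/

theorem ae_top : ∀ᵐ A ∂randomOracle, ∀ᶠ i in atTop, A ∉ BadT (tw i) i := by
  refine ae_eventually_notMem ?_
  have h1 : ∀ i, randomOracle (BadT (tw i) i) ≤ ENNReal.ofReal ((1 / 2) ^ i) := by
    intro i
    rw [← ENNReal.ofReal_toReal (measure_ne_top randomOracle (BadT (tw i) i))]
    exact ENNReal.ofReal_le_ofReal (prob_BadT_le (tw i) i)
  refine ne_top_of_le_ne_top ?_ (ENNReal.tsum_le_tsum h1)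
  rw [← ENNReal.ofReal_tsum_of_nonneg (fun i => by positivity) summable_geometric_two]
  exact ENNReal.ofReal_ne_top

theorem prob_bad0_le {n : ℕ} (hn : 1 ≤ n) : prob (BadT n 0) ≤ 3 / 4 := by
  rw [prob_BadT]
  have h1 := sat_ge hn 1
  simp only [one_mul, pow_one] at h1
  rw [add_zero]
  linarith

theorem loc_many (m k : ℕ) : Loc {x | x.length ≤ 3 * tw (m + k) + 2}
    {A | ∀ i, m ≤ i → i < m + k → A ∈ BadT (tw i) 0} := by
  intro A A' h
  refine forall₃_congr fun i h1 h2 => ?_
  refine loc_BadT (tw i) 0 A A' fun x hx => h x ?_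
  have h3 := length_le_spotsT (n := tw i) (j := 0) (Nat.zero_le _) x hx
  have h4 : tw i ≤ tw (m + k) := tw_strictMono.monotone h2.le
  change x.length ≤ _
  omega

theorem prob_many (m : ℕ) : ∀ k, prob {A | ∀ i, m ≤ i → i < m + k → A ∈ BadT (tw i) 0} ≤
    (3 / 4) ^ k := by
  intro k
  induction k with
  | zero =>
    rw [pow_zero]
    exact (M2.prob_mono (Set.subset_univ _)).trans prob_univ'.le
  | succ k ih =>
    have h1 : {A | ∀ i, m ≤ i → i < m + (k + 1) → A ∈ BadT (tw i) 0} =
        {A | ∀ i, m ≤ i → i < m + k → A ∈ BadT (tw i) 0} ∩ BadT (tw (m + k)) 0 := by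
      ext A
      constructor
      · intro h
        exact ⟨fun i h1 h2 => h i h1 (by omega), h (m + k) (by omega) (by omega)⟩
      · rintro ⟨h1, h2⟩ i h3 h4
        rcases Nat.lt_or_ge i (m + k) with h5 | h5
        · exact h1 i h3 h5
        · have : i = m + k := by omega
          rw [this]
          exact h2
    have h2 : Loc (⋃ i ∈ Finset.Ico m (m + k), (spotsT (tw i) 0 : Set (List Bool)))
        {A | ∀ i, m ≤ i → i < m + k → A ∈ BadT (tw i) 0} := by
      intro A A' h
      refine forall₃_congr fun i h1 h2 => ?_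
      refine loc_BadT (tw i) 0 A A' fun x hx => h x ?_
      exact Set.mem_biUnion (Finset.mem_coe.2 (Finset.mem_Ico.2 ⟨h1, h2⟩)) hx
    rw [h1, prob_inter_of_disjoint (Set.Finite.biUnion (Finset.finite_toSet _)
      fun i _ => Finset.finite_toSet _) (spotsT (tw (m + k)) 0).finite_toSet ?_ h2
      (loc_BadT (tw (m + k)) 0), pow_succ]
    · exact mul_le_mul ih (prob_bad0_le (tw_pos _)) (M2.prob_nonneg _) (by positivity)
    · rw [Set.disjoint_iUnion₂_left]
      intro i hi
      rw [Finset.mem_coe, Finset.mem_Ico] at hi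
      rw [Finset.disjoint_coe]
      exact disjoint_spotsT _ _ _ _ fun h => by
        have := tw_inj h
        omega

theorem ae_good : ∀ᵐ A ∂randomOracle, ∃ᶠ i in atTop, A ∉ BadT (tw i) 0 := by
  have h1 : ∀ m, ∀ᵐ A ∂randomOracle, ¬ ∀ i, m ≤ i → A ∈ BadT (tw i) 0 := by
    intro m
    rw [ae_iff]
    simp only [not_not]
    have h2 : ∀ k, randomOracle {A | ∀ i, m ≤ i → A ∈ BadT (tw i) 0} ≤
        ENNReal.ofReal ((3 / 4) ^ k) := by
      intro k
      have h6 : {A : Oracle | ∀ i, m ≤ i → A ∈ BadT (tw i) 0} ⊆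
          {A | ∀ i, m ≤ i → i < m + k → A ∈ BadT (tw i) 0} := fun A hA i h1 _ => hA i h1
      refine (measure_mono h6).trans ?_
      rw [← ENNReal.ofReal_toReal (measure_ne_top randomOracle
        {A | ∀ i, m ≤ i → i < m + k → A ∈ BadT (tw i) 0})]
      exact ENNReal.ofReal_le_ofReal (prob_many m k)
    have h3 : Tendsto (fun k : ℕ => ENNReal.ofReal ((3 / 4 : ℝ) ^ k)) atTop (nhds 0) := by
      have h4 := tendsto_pow_atTop_nhds_zero_of_lt_one (r := (3 / 4 : ℝ)) (by norm_num)
        (by norm_num)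
      have h5 := ENNReal.tendsto_ofReal h4
      simpa using h5
    exact le_antisymm (ge_of_tendsto' h3 h2) zero_le
  rw [← ae_all_iff] at h1
  filter_upwards [h1] with A hA
  rw [frequently_atTop]
  intro m
  have := hA m
  push Not at this
  obtain ⟨i, hi, hB⟩ := this
  exact ⟨i, hi, hB⟩

end Pool.Agent.J4H45.OPT
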