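import Pool.Agent.J4H45.OPT.Defs
import Pool.Agent.J4H45.OPT.Events
import Pool.Agent.J4H45.OPT.Sys

/-!
# There is no optimal proof system relative to a random oracle
-/

set_option autoImplicit false

namespace Pool.Agent.J4H45.OPT

open MeasureTheory Filter Pool.Agent.NPC Pool.Agent.H628R3.RO Pool.Agent.J4H63.ESY

/-- the language -/
def LA (A : Oracle) : Set (List Bool) := {x | x = [] ∨ A ∉ BadT (siz x) (lvl x)}

theorem mem_LA_code {A : Oracle} {n j : ℕ} : code n j ∈ LA A ↔ A ∉ BadT n j := by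
  unfold LA
  simp only [Set.mem_ofPred_eq, siz_code, lvl_code, or_iff_right_iff_imp]
  intro h
  simp [code] at h

theorem size_add_two_le (m : ℕ) : (m + 2).size ≤ m.size + 2 := by
  apply Nat.size_le.2
  have h := Nat.lt_size_self m
  have h1 : 1 ≤ 2 ^ m.size := Nat.one_le_two_pow
  rw [pow_succ, pow_succ]
  omega

section

variable {O : Oracle → Oracle} (E : Emb O) {M : Alg} {A : Oracle} {P : List Bool → List Bool}

theorem notMem_Er (hM : ∀ x, M.out (O A) x = some (P x)) (hP : Set.range P = LA A) (i : ℕ) :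
    A ∉ Er O M i := by
  rintro ⟨y, -, j, -, ho, hb⟩
  rw [hM y, Option.some.injEq] at ho
  have h1 : code (tw i) j ∈ LA A := by
    rw [← hP, ← ho]
    exact ⟨y, rfl⟩
  exact mem_LA_code.1 h1 hb

theorem Qsys_isProofSystem (hM : ∀ x, M.out (O A) x = some (P x)) (hP : Set.range P = LA A)
    {i1 : ℕ} (hU : ∀ i ≥ i1, A ∉ Up O M i) (hT : ∀ i ≥ i1, A ∉ BadT (tw i) i) :
    IsProofSystem (O A) (LA A) (Qsys E M i1 A P) := by
  refine ⟨isFP_Qsys E M i1 hM, ?_⟩
  apply Set.Subset.antisymm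
  · rintro x ⟨w, rfl⟩
    unfold Qsys
    split_ifs with h1 h2
    · obtain ⟨-, -, h3, h4⟩ := h1
      set y := arg w with hy
      simp only [okB, Bool.and_eq_true, decide_eq_true_eq] at h3
      obtain ⟨a1, a2, a3, a4, a5⟩ := h3
      obtain ⟨i, hi⟩ : ∃ i, ix (siz (P y)) = i + 1 := ⟨ix (siz (P y)) - 1, by omega⟩
      obtain ⟨j, hj⟩ : ∃ j, lvl (P y) = j + 1 := ⟨lvl (P y) - 1, by omega⟩
      have hn := tw_of_ix hi
      rw [chkB_iff] at h4
      rw [mem_LA_code]
      intro hb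
      rw [hj, hn, Nat.add_sub_cancel] at hb h4
      rw [hn] at a5
      refine hU i (by omega) ⟨notMem_Er hM hP i, y, a5, j, by omega, ?_, hb, ?_⟩
      · rw [hM y, a2, hn, hj]
      · intro v hv hh
        refine free_of_notMem E M A y (P y) v (hM y) fun q hq he => ?_
        rw [hv] at he
        refine h4 q hq ?_ ?_
        · rw [he, hv]
        · rw [he]
          exact hh
    · obtain ⟨-, -, h3⟩ := h2
      simp only [okC, Bool.and_eq_true, decide_eq_true_eq] at h3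
      obtain ⟨a1, a2, a3⟩ := h3
      rw [a1, mem_LA_code, tw_of_ix a2]
      exact hT _ a3
    · rw [← hP]
      exact ⟨_, rfl⟩
  · intro x hx
    rw [← hP] at hx
    obtain ⟨v, rfl⟩ := hx
    exact ⟨false :: v, Qsys_false E M i1 A P v⟩

theorem ladder {i1 : ℕ} {r : Polynomial ℕ}
    (hsim : ∀ w, ∃ v, P v = Qsys E M i1 A P w ∧ v.length ≤ 2 ^ r.eval w.length.size)
    {m : ℕ} (hm : 1 ≤ m) (hr : ∀ x, r.eval (x + 2) + 3 ≤ (x + 2) ^ m) {i : ℕ} (hi : i1 ≤ i)
    (hb : A ∉ BadT (tw i) 0)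
    (hg : ((tw i + i + 3).size + 2) ^ (2 * m ^ (i + 1)) ≤ tw i) : ∀ k ≤ i,
    ∃ y, P y = code (tw i) (i - k) ∧
      y.length.size + 2 ≤ ((tw i + i + 3).size + 2) ^ (m ^ (k + 1)) := by
  set σ := (tw i + i + 3).size with hσ
  intro k
  induction k with
  | zero =>
    intro _
    obtain ⟨v, hv, hl⟩ := hsim (true :: true :: code (tw i) i)
    rw [Qsys_axiom E M i1 A P hi] at hv
    refine ⟨v, by rw [hv, Nat.sub_zero], ?_⟩
    have h1 : (true :: true :: code (tw i) i).length = tw i + i + 3 := by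
      simp [code]
      omega
    rw [h1, ← hσ] at hl
    have h2 := size_le_of_le_two_pow hl
    have h3 := hr σ
    have h4 : r.eval σ ≤ r.eval (σ + 2) := eval_mono r (by omega)
    rw [zero_add, pow_one]
    omega
  | succ k ih =>
    intro hk
    obtain ⟨y, hy, hl⟩ := ih (by omega)
    have hS : Sh (tw i) y.length := by
      unfold Sh
      calc y.length.size ^ 2 ≤ ((σ + 2) ^ (m ^ (k + 1))) ^ 2 :=
            Nat.pow_le_pow_left (by omega) _
        _ = (σ + 2) ^ (2 * m ^ (k + 1)) := by rw [← pow_mul, mul_comm]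
        _ ≤ (σ + 2) ^ (2 * m ^ (i + 1)) := by
            apply Nat.pow_le_pow_right (by omega)
            apply Nat.mul_le_mul_left
            exact Nat.pow_le_pow_right hm (by omega)
        _ ≤ tw i := hg
    obtain ⟨v, hv, hvl⟩ := hsim (true :: false :: y)
    have hj : i - k = (i - (k + 1)) + 1 := by omega
    rw [Qsys_step E M i1 A P hi (j := i - (k + 1)) (by omega) hS (by rw [hy, hj]) hb] at hv
    refine ⟨v, hv, ?_⟩
    have h1 : (true :: false :: y).length = y.length + 2 := by simp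
    rw [h1] at hvl
    have h2 := size_le_of_le_two_pow hvl
    have h3 := size_add_two_le y.length
    have h4 : r.eval (y.length + 2).size ≤ r.eval (y.length.size + 2) := eval_mono r h3
    have h5 := hr y.length.size
    calc v.length.size + 2 ≤ (y.length.size + 2) ^ m := by omega
      _ ≤ ((σ + 2) ^ (m ^ (k + 1))) ^ m := Nat.pow_le_pow_left hl _
      _ = (σ + 2) ^ (m ^ (k + 1 + 1)) := by rw [← pow_mul, ← pow_succ]

theorem mem_Zr (hM : ∀ x, M.out (O A) x = some (P x)) {i1 : ℕ} {r : Polynomial ℕ}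
    (hsim : ∀ w, ∃ v, P v = Qsys E M i1 A P w ∧ v.length ≤ 2 ^ r.eval w.length.size)
    {m : ℕ} (hm : 1 ≤ m) (hr : ∀ x, r.eval (x + 2) + 3 ≤ (x + 2) ^ m) {i : ℕ} (hi : i1 ≤ i)
    (hb : A ∉ BadT (tw i) 0)
    (hg : ((tw i + i + 3).size + 2) ^ (2 * m ^ (i + 1)) ≤ tw i) : A ∈ Zr O M i := by
  obtain ⟨y, hy, hl⟩ := ladder E hsim hm hr hi hb hg i le_rfl
  refine ⟨hb, y, ?_, ?_⟩
  · unfold Sh
    calc y.length.size ^ 2 ≤ (((tw i + i + 3).size + 2) ^ (m ^ (i + 1))) ^ 2 :=
          Nat.pow_le_pow_left (by omega) _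
      _ = ((tw i + i + 3).size + 2) ^ (2 * m ^ (i + 1)) := by rw [← pow_mul, mul_comm]
      _ ≤ tw i := hg
  · rw [hM y, hy, Nat.sub_self]

end

theorem ae_LA {O : Oracle → Oracle} (E : Emb O) :
    ∀ᵐ A ∂randomOracle, ¬ ∃ P, IsQOptimal (O A) (LA A) P := by
  have h1 : ∀ᵐ A ∂randomOracle, ∀ M : Alg, (∀ i, A ∉ Er O M i) →
      ∀ᶠ i in atTop, A ∉ Up O M i ∧ A ∉ Zr O M i := by
    rw [ae_all_iff]
    exact fun M => ae_sound E M
  filter_upwards [h1, ae_top, ae_good] with A h1 h2 h3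
  rintro ⟨P, ⟨⟨M, hM⟩, hP⟩, hopt⟩
  have h4 := h1 M (notMem_Er hM hP)
  obtain ⟨i1, hi1⟩ := eventually_atTop.1 (h4.and h2)
  obtain ⟨r, hr⟩ := hopt _ (Qsys_isProofSystem E hM hP (i1 := i1)
    (fun i hi => (hi1 i hi).1.1) fun i hi => (hi1 i hi).2)
  obtain ⟨m, hm, hrm⟩ := exists_exponent r
  obtain ⟨i, hi, hb, hg⟩ := (h3.and_eventually ((eventually_ge_atTop i1).and (growth m))).exists
  exact (hi1 i hb).1.2 (mem_Zr E hM hr hm hrm hb hi hg)

/-! ### Transfer to hard sets -/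

theorem IsQOptimal.transfer {A : Oracle} {L L₀ : Set (List Bool)} {P : List Bool → List Bool}
    (h : IsQOptimal A L P) (hr : Red A L₀ L) (hne : L₀.Nonempty) :
    ∃ P₀, IsQOptimal A L₀ P₀ := by
  obtain ⟨F, hF, hr⟩ := hr
  obtain ⟨x₀, hx₀⟩ := hne
  refine ⟨backSys F P x₀, backSys_isProofSystem h.1 hF hr hx₀, fun Q₀ hQ₀ => ?_⟩
  obtain ⟨q, hq⟩ := h.2 _ (addSys_isProofSystem h.1 hF hr hQ₀)
  obtain ⟨b, hb⟩ := IsFP.length_le hQ₀.1
  refine ⟨Polynomial.C (b.eval 1 + 3) + Polynomial.C b.natDegree * Polynomial.X +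
    q.comp (Polynomial.X + Polynomial.C 1), fun w => ?_⟩
  obtain ⟨v, hv, hvl⟩ := hq (true :: w)
  rw [addSys_true] at hv
  refine ⟨pairBits (Q₀ w) v, backSys_pair hv, ?_⟩
  rw [length_pairBits_A3]
  simp only [Polynomial.eval_add, Polynomial.eval_mul, Polynomial.eval_C,
    Polynomial.eval_comp, Polynomial.eval_X]
  have h1 := (hb w).trans (eval_le_pow b w.length w.length.size (Nat.lt_size_self _).le)
  rw [List.length_cons] at hvl
  have h2 : (w.length + 1).size ≤ w.length.size + 1 := by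
    apply Nat.size_le.2
    have h := Nat.lt_size_self w.length
    have h1 : 1 ≤ 2 ^ w.length.size := Nat.one_le_two_pow
    rw [pow_succ]
    omega
  have h3 : v.length ≤ 2 ^ q.eval (w.length.size + 1) :=
    hvl.trans (Nat.pow_le_pow_right (by norm_num) (eval_mono q h2))
  set a := b.eval 1 + b.natDegree * w.length.size with ha
  set c := q.eval (w.length.size + 1) with hc
  have h4 : 2 ^ a ≤ 2 ^ (a + c) := Nat.pow_le_pow_right (by norm_num) (by omega)
  have h5 : 2 ^ c ≤ 2 ^ (a + c) := Nat.pow_le_pow_right (by norm_num) (by omega)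
  have h6 : 1 ≤ 2 ^ (a + c) := Nat.one_le_two_pow
  have h7 : b.eval 1 + 3 + b.natDegree * w.length.size + c = a + c + 3 := by omega
  rw [h7, pow_add]
  omega

theorem IsOptimal.isQOptimal {A : Oracle} {L : Set (List Bool)} {P : List Bool → List Bool}
    (h : IsOptimal A L P) : IsQOptimal A L P := by
  refine ⟨h.1, fun Q hQ => ?_⟩
  obtain ⟨q, hq⟩ := h.2 Q hQ
  refine ⟨Polynomial.C (q.eval 1) + Polynomial.C q.natDegree * Polynomial.X, fun w => ?_⟩
  obtain ⟨v, hv, hl⟩ := hq w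
  refine ⟨v, hv, hl.trans ?_⟩
  simp only [Polynomial.eval_add, Polynomial.eval_mul, Polynomial.eval_C, Polynomial.eval_X]
  exact eval_le_pow q w.length w.length.size (Nat.lt_size_self _).le

theorem main {O : Oracle → Oracle} (E : Emb O) : ∀ᵐ A ∂randomOracle, ∀ L : Set (List Bool),
    CoNPHardRel (O A) L → ¬ ∃ P, IsQOptimal (O A) L P := by
  filter_upwards [ae_LA E] with A hA L hL
  rintro ⟨P, hP⟩
  exact hA (hP.transfer (hL _ (isCoNP_emb E A)) ⟨[], Or.inl rfl⟩)

end Pool.Agent.J4H45.OPT
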