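import Pool.Agent.H628R3.RO.M2

/-!
# Overwriting finitely many values of a random oracle
-/

set_option autoImplicit false

namespace Pool.Agent.J4H45.OPT

open MeasureTheory Pool.Agent.H628R3.RO

/-- The oracle `A` with the values on `J` replaced by those of `v`. -/
def ovr (J : Finset (List Bool)) (v A : Oracle) : Oracle := fun x => if x ∈ J then v x else A x

theorem ovr_of_mem {J : Finset (List Bool)} {v A : Oracle} {x : List Bool} (h : x ∈ J) :
    ovr J v A x = v x := if_pos h

theorem ovr_of_notMem {J : Finset (List Bool)} {v A : Oracle} {x : List Bool} (h : x ∉ J) :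
    ovr J v A x = A x := if_neg h

theorem measurable_ovr (J : Finset (List Bool)) (v : Oracle) : Measurable (ovr J v) := by
  refine measurable_pi_lambda _ fun x => ?_
  unfold ovr
  by_cases hx : x ∈ J
  · simp only [hx, if_true]
    exact measurable_const
  · simp only [hx, if_false]
    exact measurable_pi_apply _

theorem measure_upd_le (x : List Bool) (b : Bool) {S : Set Oracle} (hS : MeasurableSet S) :
    randomOracle ((fun A : Oracle => Function.update A x b) ⁻¹' S) ≤ 2 * randomOracle S := by
  have h1 : (2⁻¹ : ENNReal) * randomOracle ((fun A : Oracle => Function.update A x b) ⁻¹' S) ≤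
      randomOracle S := by
    conv_rhs => rw [← randomOracle_eq_upd x]
    rw [Measure.add_apply, Measure.smul_apply, Measure.smul_apply,
      Measure.map_apply (measurable_upd x true) hS, Measure.map_apply (measurable_upd x false) hS]
    cases b with
    | true => exact le_self_add
    | false => exact le_add_self
  calc randomOracle ((fun A : Oracle => Function.update A x b) ⁻¹' S)
      = 2 * ((2⁻¹ : ENNReal) *
          randomOracle ((fun A : Oracle => Function.update A x b) ⁻¹' S)) := by
        rw [← mul_assoc, ENNReal.mul_inv_cancel (by norm_num) (by norm_num), one_mul]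
    _ ≤ 2 * randomOracle S := by gcongr

theorem ovr_insert (x : List Bool) (J : Finset (List Bool)) (v A : Oracle) :
    ovr (insert x J) v A = Function.update (ovr J v A) x (v x) := by
  funext y
  by_cases hy : y = x
  · subst hy; simp [ovr]
  · simp [ovr, Finset.mem_insert, hy]

theorem measure_ovr_le (J : Finset (List Bool)) (v : Oracle) :
    ∀ {S : Set Oracle}, MeasurableSet S →
      randomOracle (ovr J v ⁻¹' S) ≤ 2 ^ J.card * randomOracle S := by
  classical
  induction J using Finset.induction_on with
  | empty =>
    intro S hS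
    have h : ovr ∅ v ⁻¹' S = S := by
      ext A
      have : ovr ∅ v A = A := by funext y; simp [ovr]
      simp [this]
    simp [h]
  | insert x J hx ih =>
    intro S hS
    have h1 : ovr (insert x J) v ⁻¹' S =
        ovr J v ⁻¹' ((fun A : Oracle => Function.update A x (v x)) ⁻¹' S) := by
      ext A
      simp only [Set.mem_preimage, ovr_insert]
    rw [h1, Finset.card_insert_of_notMem hx]
    calc randomOracle (ovr J v ⁻¹' ((fun A : Oracle => Function.update A x (v x)) ⁻¹' S))
        ≤ 2 ^ J.card * randomOracle ((fun A : Oracle => Function.update A x (v x)) ⁻¹' S) :=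
          ih (measurable_upd x (v x) hS)
      _ ≤ 2 ^ J.card * (2 * randomOracle S) := by gcongr; exact measure_upd_le x (v x) hS
      _ = 2 ^ (J.card + 1) * randomOracle S := by rw [pow_succ, mul_assoc]

/-- If for every oracle in `S` there are at least `m` indices `i` such that overwriting the values
on `J i` leads into the part `U i` of `S'`, then the probability of `S` is bounded by that of
`S'`. -/
theorem plant_count {ι : Type} (I : Finset ι) (J : ι → Finset (List Bool)) (v : ι → Oracle)
    (U : ι → Set Oracle) {S S' : Set Oracle} (hS' : MeasurableSet S')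
    (hU : ∀ i ∈ I, MeasurableSet (U i))
    (hd : ∀ i ∈ I, ∀ i' ∈ I, i ≠ i' → ∀ A, A ∈ U i → A ∉ U i') {c : ℕ}
    (hc : ∀ i ∈ I, (J i).card ≤ c) (m : ℕ)
    (h : ∀ A ∈ S, ∃ I' ⊆ I, m ≤ I'.card ∧ ∀ i ∈ I', ovr (J i) (v i) A ∈ S' ∩ U i) :
    (m : ENNReal) * randomOracle S ≤ 2 ^ c * randomOracle S' := by
  classical
  set V : ι → Set Oracle := fun i => ovr (J i) (v i) ⁻¹' (S' ∩ U i) with hV
  have hVm : ∀ i ∈ I, MeasurableSet (V i) := fun i hi =>
    measurable_ovr _ _ (hS'.inter (hU i hi))
  set f : Oracle → ENNReal := fun A => ∑ i ∈ I, (V i).indicator (fun _ => (1 : ENNReal)) A with hf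
  have hfm : Measurable f := Finset.measurable_sum _ fun i hi =>
    (measurable_const.indicator (hVm i hi))
  have h1 : S ⊆ {A | (m : ENNReal) ≤ f A} := by
    intro A hA
    obtain ⟨I', hI', hm, hI⟩ := h A hA
    change (m : ENNReal) ≤ f A
    calc (m : ENNReal) ≤ (I'.card : ENNReal) := by exact_mod_cast hm
      _ = ∑ i ∈ I', (1 : ENNReal) := by simp
      _ = ∑ i ∈ I', (V i).indicator (fun _ => (1 : ENNReal)) A := by
          refine Finset.sum_congr rfl fun i hi => ?_
          rw [Set.indicator_of_mem]
          exact hI i hi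
      _ ≤ ∑ i ∈ I, (V i).indicator (fun _ => (1 : ENNReal)) A :=
          Finset.sum_le_sum_of_subset hI'
  have h2 : ∫⁻ A, f A ∂randomOracle = ∑ i ∈ I, randomOracle (V i) := by
    rw [hf, lintegral_finsetSum' _ fun i hi =>
      (measurable_const.indicator (hVm i hi)).aemeasurable]
    refine Finset.sum_congr rfl fun i hi => ?_
    rw [lintegral_indicator_const (hVm i hi), one_mul]
  calc (m : ENNReal) * randomOracle S ≤ (m : ENNReal) * randomOracle {A | (m : ENNReal) ≤ f A} := by
        gcongr
    _ ≤ ∫⁻ A, f A ∂randomOracle := mul_meas_ge_le_lintegral hfm _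
    _ = ∑ i ∈ I, randomOracle (V i) := h2
    _ ≤ ∑ i ∈ I, 2 ^ c * randomOracle (S' ∩ U i) := by
        refine Finset.sum_le_sum fun i hi => ?_
        refine (measure_ovr_le _ _ (hS'.inter (hU i hi))).trans ?_
        gcongr
        · norm_num
        · exact hc i hi
    _ = 2 ^ c * ∑ i ∈ I, randomOracle (S' ∩ U i) := by rw [Finset.mul_sum]
    _ = 2 ^ c * randomOracle (⋃ i ∈ I, S' ∩ U i) := by
        rw [measure_biUnion_finset]
        · intro i hi i' hi' hne
          rw [Function.onFun, Set.disjoint_left]
          intro A hA hA'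
          exact hd i hi i' hi' hne A hA.2 hA'.2
        · intro i hi
          exact hS'.inter (hU i hi)
    _ ≤ 2 ^ c * randomOracle S' := by
        gcongr
        exact Set.iUnion₂_subset fun i _ => Set.inter_subset_left

end Pool.Agent.J4H45.OPT
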