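import Pool.Agent.H628R3.RO.A3
import Pool.Agent.H628R3.RO.D1

/-!
# The questions asked by an oracle algorithm
-/

set_option autoImplicit false

namespace Pool.Agent.J4H45.OPT

open Pool.Agent.NPC Pool.Agent.H628R3.RO

/-- The answers received by the algorithm, when at most `n` further rounds are allowed and the
answers so far are `a`. -/
def tr (M : Alg) (A : Oracle) (x : List Bool) : ℕ → List Bool → List Bool
  | 0, a => a
  | n + 1, a => if (M.D (pairBits x a)).head? = some false then
      tr M A x n (a ++ [A (M.D (pairBits x a)).tail]) else a

/-- the question asked when the answers so far are `a` -/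
def qu (M : Alg) (x a : List Bool) : List Bool := (M.D (pairBits x a)).tail

/-- the questions asked when the answers are `t` -/
def qs (M : Alg) (x t : List Bool) : List (List Bool) :=
  (List.range t.length).map (fun k => qu M x (t.take k))

theorem qs_length (M : Alg) (x t : List Bool) : (qs M x t).length = t.length := by
  simp [qs]

theorem tr_prefix (M : Alg) (A : Oracle) (x : List Bool) : ∀ (n : ℕ) (a : List Bool),
    a <+: tr M A x n a := by
  intro n
  induction n with
  | zero => intro a; exact List.prefix_rfl
  | succ n ih =>
    intro a
    rw [tr]
    split_ifs with h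
    · exact (List.prefix_append _ _).trans (ih _)
    · exact List.prefix_rfl

theorem tr_length (M : Alg) (A : Oracle) (x : List Bool) : ∀ (n : ℕ) (a : List Bool),
    (tr M A x n a).length ≤ a.length + n := by
  intro n
  induction n with
  | zero => intro a; exact le_rfl
  | succ n ih =>
    intro a
    rw [tr]
    split_ifs with h
    · refine (ih _).trans ?_
      simp
      omega
    · omega

/-- the last action -/
theorem tr_last (M : Alg) (A : Oracle) (x z : List Bool) : ∀ (n : ℕ) (a : List Bool),
    M.run A x n a = some z → (M.D (pairBits x (tr M A x n a))).head? ≠ some false ∧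
      (M.D (pairBits x (tr M A x n a))).tail = z := by
  intro n
  induction n with
  | zero => intro a h; simp [Alg.run] at h
  | succ n ih =>
    intro a h
    rw [A2.run_succ] at h
    rw [tr]
    split_ifs with h1
    · rw [if_pos h1] at h
      exact ih _ h
    · rw [if_neg h1] at h
      exact ⟨h1, by simpa using h⟩

/-- The computation depends only on the answers to the questions asked. -/
theorem run_congr (M : Alg) (A A' : Oracle) (x z : List Bool) : ∀ (n : ℕ) (a : List Bool),
    M.run A x n a = some z →
    (∀ k, a.length ≤ k → k < (tr M A x n a).length →
      A' (qu M x ((tr M A x n a).take k)) = A (qu M x ((tr M A x n a).take k))) →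
    M.run A' x n a = some z := by
  intro n
  induction n with
  | zero => intro a h; simp [Alg.run] at h
  | succ n ih =>
    intro a h hq
    rw [A2.run_succ] at h ⊢
    by_cases h1 : (M.D (pairBits x a)).head? = some false
    · rw [if_pos h1] at h ⊢
      have e : tr M A x (n + 1) a = tr M A x n (a ++ [A (M.D (pairBits x a)).tail]) := by
        rw [tr, if_pos h1]
      rw [e] at hq
      have hp := tr_prefix M A x n (a ++ [A (M.D (pairBits x a)).tail])
      set t := tr M A x n (a ++ [A (M.D (pairBits x a)).tail]) with ht
      have hlen : a.length < t.length := by
        have := hp.length_le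
        simp at this
        omega
      have htake : t.take a.length = a := by
        have h2 : a <+: t := (List.prefix_append _ _).trans hp
        exact (List.prefix_iff_eq_take.1 h2).symm
      have h3 := hq a.length le_rfl hlen
      rw [htake] at h3
      have h4 : A' (M.D (pairBits x a)).tail = A (M.D (pairBits x a)).tail := h3
      rw [h4]
      refine ih _ h fun k hk hk' => hq k ?_ hk'
      simp at hk
      omega
    · rw [if_neg h1] at h ⊢
      exact h

/-- the answers received by the algorithm on input `x` -/
def trs (M : Alg) (A : Oracle) (x : List Bool) : List Bool := tr M A x (M.p.eval x.length) []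

theorem trs_length (M : Alg) (A : Oracle) (x : List Bool) :
    (trs M A x).length ≤ M.p.eval x.length := by
  have := tr_length M A x (M.p.eval x.length) []
  simpa [trs] using this

theorem out_congr_qs (M : Alg) (A A' : Oracle) (x z : List Bool) (h : M.out A x = some z)
    (hq : ∀ q ∈ qs M x (trs M A x), A' q = A q) : M.out A' x = some z := by
  refine run_congr M A A' x z _ [] h fun k _ hk => hq _ ?_
  exact List.mem_map.2 ⟨k, List.mem_range.2 hk, rfl⟩

/-! ### The algorithm which returns the answers, too -/

/-- the next action -/
def recD (D : List Bool → List Bool) (y : List Bool) : List Bool :=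
  if (D y).head? = some false then D y else true :: pairBits (unpair y).2 (D y).tail

theorem poly_recD {D : List Bool → List Bool} (hD : Poly D) : Poly (recD D) := by
  refine Poly.ite (Poly.decide_eq (Poly.head? hD) (NPC.Poly.const _)) hD ?_
  exact Poly.cons (NPC.Poly.const true) (H622R2.poly_pairBits (Poly.snd poly_unpair)
    (Poly.tail hD))

/-- the algorithm which returns the answers and the output -/
noncomputable def recAlg (M : Alg) : Alg where
  D := recD M.D
  poly := H622R2.polyTime_of_poly_list (poly_recD (H622R2.poly_of_polyTime M.poly))
  p := M.p

theorem rec_run (M : Alg) (A : Oracle) (x z : List Bool) : ∀ (n : ℕ) (a : List Bool),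
    M.run A x n a = some z → (recAlg M).run A x n a = some (pairBits (tr M A x n a) z) := by
  intro n
  induction n with
  | zero => intro a h; simp [Alg.run] at h
  | succ n ih =>
    intro a h
    rw [A2.run_succ] at h ⊢
    rw [tr]
    have hD : (recAlg M).D (pairBits x a) = if (M.D (pairBits x a)).head? = some false then
        M.D (pairBits x a) else true :: pairBits a (M.D (pairBits x a)).tail := by
      change recD M.D (pairBits x a) = _
      rw [recD, unpair_pairBits]
    by_cases h1 : (M.D (pairBits x a)).head? = some false
    · rw [if_pos h1] at h hD ⊢
      rw [hD, if_pos h1]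
      exact ih _ h
    · rw [if_neg h1] at h hD ⊢
      rw [hD, if_neg (by simp)]
      simp only [Option.some.injEq] at h
      rw [h, List.tail_cons]

theorem isFP_rec {A : Oracle} {M : Alg} {P : List Bool → List Bool}
    (hM : ∀ x, M.out A x = some (P x)) :
    IsFP A (fun x => pairBits (trs M A x) (P x)) :=
  ⟨recAlg M, fun x => rec_run M A x (P x) _ [] (hM x)⟩

end Pool.Agent.J4H45.OPT
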